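import Pool.Agent.X181.DR.Elim4

/-!
# The almost Einstein scales of the wave, algebraically
-/

set_option autoImplicit false
set_option linter.unusedSimpArgs false
set_option linter.unusedSectionVars false

namespace Pool.Agent.X181.DR

section

variable {R : Type*} [CommRing R] [Algebra ℝ R]
variable (t x y z : Derivation ℝ R R) (hyx : ∀ f, y (x f) = x (y f)) (htx : ∀ f, t (x f) = x (t f))
  (hty : ∀ f, t (y f) = y (t f)) (hzx : ∀ f, z (x f) = x (z f)) (hzy : ∀ f, z (y f) = y (z f))
  (hzt : ∀ f, z (t f) = t (z f))

include hyx htx hty hzx hzy hzt in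
theorem ae4 {s m G H : R} (hHx : x H = H) (hHy : y H = -G) (hHz : z H = 0)
    (hGx : x G = G) (hGy : y G = H) (hW : IsUnit (G * G + H * H))
    (f1 : z (z s) = 0) (f2 : x (z s) = 0) (f3 : y (z s) = 0) (f4 : t (z s) = m)
    (f5 : x (x s) = m) (f6 : y (y s) = m) (f7 : x (y s) = 0)
    (f8 : x (t s) + x (t s) = H * z s) (f9 : y (t s) + y (t s) = -(G * z s))
    (f10 : t (t s) + t (t s) + H * x s - G * y s = H * (m + m)) :
    x s = 0 ∧ y s = 0 ∧ z s = 0 ∧ t (t s) = 0 := by
  have a1 : H * z s = t m + t m := by
    have h1 := congrArg x f8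
    have h2 := congrArg t f5
    simp only [map_add, Derivation.leibniz, smul_eq_mul, hHx, f2, htx, mul_zero, zero_add] at h1 h2
    linear_combination -h1 + 2 * h2
  have a2 : H * z s = -(t m + t m) := by
    have h1 := congrArg y f9
    have h2 := congrArg t f6
    simp only [map_add, map_neg, Derivation.leibniz, smul_eq_mul, hGy, f3, hty, mul_zero,
      zero_add] at h1 h2
    linear_combination h1 - 2 * h2
  have a3 : G * z s = 0 := by
    have h1 := congrArg y f8
    have h2 := congrArg t f7
    simp only [map_add, map_zero, Derivation.leibniz, smul_eq_mul, hHy, f3, hyx, htx, hty,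
      mul_zero, zero_add] at h1 h2
    linear_combination h1 - 2 * h2
  have a4 : H * z s = 0 := two_cancel (by linear_combination a1 + a2)
  have zs : z s = 0 := unit_cancel hW (by linear_combination G * a3 + H * a4)
  rw [zs] at f4 f8 f9
  have m0 : m = 0 := by rw [← f4, map_zero]
  subst m0
  rw [mul_zero] at f8 f9
  have f8' := two_cancel f8
  have f9' := two_cancel (f9.trans neg_zero)
  have b1 : H * x s = G * y s := by
    have h1 := congrArg x f10
    have h2 := congrArg t f8'
    simp only [map_add, map_sub, map_zero, Derivation.leibniz, smul_eq_mul, hHx, hGx, f5, f7, htx,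
      mul_zero, zero_add, add_zero] at h1 h2
    linear_combination h1 - 2 * h2
  have b2 : G * x s + H * y s = 0 := by
    have h1 := congrArg y f10
    have h2 := congrArg t f9'
    simp only [map_add, map_sub, map_zero, Derivation.leibniz, smul_eq_mul, hHy, hGy, hyx, f6, f7,
      hty, mul_zero, zero_add, add_zero] at h1 h2
    linear_combination -h1 + 2 * h2
  obtain ⟨xs, ys⟩ := solve2 hW b2 b1
  refine ⟨xs, ys, zs, two_cancel ?_⟩
  rw [xs, ys] at f10
  linear_combination f10

end

end Pool.Agent.X181.DR
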