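import Pool.Agent.X181.DR.T4

/-!
# The almost Einstein scales of the wave
-/

set_option autoImplicit false

namespace Pool.Agent.X181.N4

open scoped ContDiff
open Pool.Agent.X181 Pool.Agent.X181.DR

theorem lin_exp (L : V →L[ℝ] ℝ) (v : V) : L v = v 0 * L ![1, 0, 0, 0] + v 1 * L ![0, 1, 0, 0] +
    v 2 * L ![0, 0, 1, 0] + v 3 * L ![0, 0, 0, 1] := by
  have h : v = v 0 • ![1, 0, 0, 0] + v 1 • ![0, 1, 0, 0] + v 2 • ![0, 0, 1, 0] +
      v 3 • ![0, 0, 0, 1] := by
    funext i; fin_cases i <;> simp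
  conv_lhs => rw [h]
  simp only [map_add, map_smul, smul_eq_mul]

theorem D_mk_eq {n : ℕ} {U : Set (Fin n → ℝ)} (hU : IsOpen U) (v : Fin n → ℝ)
    {F : (Fin n → ℝ) → ℝ} (hF : ContDiffOn ℝ ∞ F U) : D hU v (mk F hF) =
      mk (fun p => fderiv ℝ F p v)
        ((hF.fderiv_of_isOpen hU (by simp)).clm_apply contDiffOn_const) :=
  eq_of fun p => D_mk hU v F hF p

theorem D_D_mk {n : ℕ} {U : Set (Fin n → ℝ)} (hU : IsOpen U) (v w : Fin n → ℝ)
    {F : (Fin n → ℝ) → ℝ} (hF : ContDiffOn ℝ ∞ F U) (p : U) :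
    (D hU v (D hU w (mk F hF)) : U → ℝ) p = fderiv ℝ (fderiv ℝ F) p v w := by
  rw [D_mk_eq hU w hF, D_mk]
  have h2 : HasFDerivAt (fderiv ℝ F) (fderiv ℝ (fderiv ℝ F) p) p :=
    (((hF.fderiv_of_isOpen hU (m := ∞) (by simp)).contDiffAt
      (hU.mem_nhds p.2)).differentiableAt (by simp)).hasFDerivAt
  have h3 : HasFDerivAt (fun q => fderiv ℝ F q w)
      ((ContinuousLinearMap.apply ℝ ℝ w).comp (fderiv ℝ (fderiv ℝ F) p)) p :=
    (ContinuousLinearMap.apply ℝ ℝ w).hasFDerivAt.comp (p : Fin n → ℝ) h2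
  rw [h3.fderiv]
  rfl

theorem ae_iff (s : V → ℝ) : IsAEScale gw Gw s ↔
    ∃ a b : ℝ, s = a • (fun _ => (1 : ℝ)) + b • fun p : V => p 0 := by
  constructor
  · rintro ⟨hs, hH⟩
    obtain ⟨μ, hμ⟩ : ∃ μ : V → ℝ, ∀ x u v, fderiv ℝ (fderiv ℝ s) x u v =
        fderiv ℝ s x (Gw x u v) + μ x * gw x u v := by
      refine ⟨fun x => 1 / 4 * tr gw x (fun u v => Hess Gw s x u v + Sch gw Gw x u v * s x),
        fun x u v => ?_⟩
      have h := hH x u v
      simp only [Hess, sch] at h ⊢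
      linear_combination h
    have hsU : ContDiffOn ℝ ∞ s Set.univ := hs.contDiffOn
    obtain ⟨S, hS⟩ : ∃ S : Sm (Set.univ : Set V), S = mk s hsU := ⟨_, rfl⟩
    have hD1 : ∀ v : V, ∀ p : (Set.univ : Set V), (D isOpen_univ v S : _ → ℝ) p =
        fderiv ℝ s p v := fun v p => by rw [hS, D_mk]
    have hD2 : ∀ u v : V, ∀ p : (Set.univ : Set V),
        (D isOpen_univ u (D isOpen_univ v S) : _ → ℝ) p =
        (-(1 / 2) * (HH p * (u 0 * v 0))) * (D isOpen_univ ![0, 1, 0, 0] S : _ → ℝ) p +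
        (1 / 2 * (GG p * (u 0 * v 0))) * (D isOpen_univ ![0, 0, 1, 0] S : _ → ℝ) p +
        (1 / 2 * (HH p * (u 0 * v 1 + u 1 * v 0)) - 1 / 2 * (GG p * (u 0 * v 2 + u 2 * v 0))) *
          (D isOpen_univ ![0, 0, 0, 1] S : _ → ℝ) p + μ p * gw p u v := by
      intro u v p
      rw [hD1, hD1, hD1, hS, D_D_mk, hμ, lin_exp (fderiv ℝ s p) (Gw p u v), Gw_apply]
      simp
    have key := ae4 (D isOpen_univ ![1, 0, 0, 0]) (D isOpen_univ ![0, 1, 0, 0])
      (D isOpen_univ ![0, 0, 1, 0]) (D isOpen_univ ![0, 0, 0, 1])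
      (fun f => D_comm _ _ _ f) (fun f => D_comm _ _ _ f) (fun f => D_comm _ _ _ f)
      (fun f => D_comm _ _ _ f) (fun f => D_comm _ _ _ f) (fun f => D_comm _ _ _ f)
      (s := S) (m := D isOpen_univ ![1, 0, 0, 0] (D isOpen_univ ![0, 0, 0, 1] S))
      (G := mG Set.univ) (H := mH Set.univ) (by rw [D_H]; simp) (by rw [D_H]; simp)
      (by rw [D_H]; simp) (by rw [D_G]; simp) (by rw [D_G]; simp) unitGH
      (eq_of fun p => by rw [hD2]; simp [gw])
      (eq_of fun p => by rw [hD2]; simp [gw])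
      (eq_of fun p => by rw [hD2]; simp [gw])
      rfl
      (eq_of fun p => by rw [hD2, hD2]; simp [gw])
      (eq_of fun p => by rw [hD2, hD2]; simp [gw])
      (eq_of fun p => by rw [hD2]; simp [gw])
      (eq_of fun p => by
        rw [Subalgebra.coe_add, Pi.add_apply, hD2]
        simp [gw, mH, mk_apply]
        ring)
      (eq_of fun p => by
        rw [Subalgebra.coe_add, Pi.add_apply, hD2]
        simp [gw, mG, mk_apply]
        ring)
      (eq_of fun p => by
        simp only [Subalgebra.coe_add, Pi.add_apply, Subalgebra.coe_sub, Pi.sub_apply,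
          Subalgebra.coe_mul, Pi.mul_apply, hD2]
        simp [gw, mG, mH, mk_apply]
        ring)
    obtain ⟨kx, ky, kz, ktt⟩ := key
    have zx : ∀ p : V, fderiv ℝ s p ![0, 1, 0, 0] = 0 := fun p => by
      rw [← hD1 _ ⟨p, Set.mem_univ p⟩, kx]; rfl
    have zy : ∀ p : V, fderiv ℝ s p ![0, 0, 1, 0] = 0 := fun p => by
      rw [← hD1 _ ⟨p, Set.mem_univ p⟩, ky]; rfl
    have zz : ∀ p : V, fderiv ℝ s p ![0, 0, 0, 1] = 0 := fun p => by
      rw [← hD1 _ ⟨p, Set.mem_univ p⟩, kz]; rfl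
    have hsD : Differentiable ℝ s := hs.differentiable (by simp)
    have hr : ∀ p : V, fderiv ℝ s p ![1, 0, 0, 0] = fderiv ℝ s 0 ![1, 0, 0, 0] := by
      have h2 : ∀ p, HasFDerivAt (fun q => fderiv ℝ s q ![1, 0, 0, 0])
          ((ContinuousLinearMap.apply ℝ ℝ (![1, 0, 0, 0] : V)).comp
            (fderiv ℝ (fderiv ℝ s) p)) p := fun p =>
        (ContinuousLinearMap.apply ℝ ℝ (![1, 0, 0, 0] : V)).hasFDerivAt.comp p
          ((hs.fderiv_right (m := ∞) (by simp)).differentiable (by simp)).differentiableAt.hasFDerivAt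
      have h3 : ∀ p, fderiv ℝ (fun q => fderiv ℝ s q ![1, 0, 0, 0]) p = 0 := by
        intro p
        have h5 : ∀ v, fderiv ℝ (fun q => fderiv ℝ s q ![1, 0, 0, 0]) p v =
            (D isOpen_univ v (D isOpen_univ ![1, 0, 0, 0] S) : ↥(Set.univ : Set V) → ℝ)
              ⟨p, Set.mem_univ p⟩ := by
          intro v
          rw [hS, D_D_mk, (h2 p).fderiv]
          rfl
        ext v
        rw [lin_exp]
        simp only [h5]
        rw [ktt, D_comm isOpen_univ ![0, 1, 0, 0], kx, D_comm isOpen_univ ![0, 0, 1, 0], ky,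
          D_comm isOpen_univ ![0, 0, 0, 1], kz]
        simp
      intro p
      exact is_const_of_fderiv_eq_zero (fun q => (h2 q).differentiableAt) h3 p 0
    refine ⟨s 0, fderiv ℝ s 0 ![1, 0, 0, 0], ?_⟩
    set b := fderiv ℝ s 0 ![1, 0, 0, 0] with hb
    have hq : ∀ p, HasFDerivAt (fun q : V => s q - b * q 0) (fderiv ℝ s p - b • pr 0) p :=
      fun p => (hsD p).hasFDerivAt.sub ((pr_deriv 0 p).const_mul b)
    have hq0 : ∀ p, fderiv ℝ (fun q : V => s q - b * q 0) p = 0 := by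
      intro p
      rw [(hq p).fderiv]
      have e0 : (fderiv ℝ s p - b • pr 0) ![1, 0, 0, 0] = 0 := by
        show fderiv ℝ s p ![1, 0, 0, 0] - b * 1 = 0
        rw [hr p]; ring
      have e1 : (fderiv ℝ s p - b • pr 0) ![0, 1, 0, 0] = 0 := by
        show fderiv ℝ s p ![0, 1, 0, 0] - b * 0 = 0
        rw [zx p]; ring
      have e2 : (fderiv ℝ s p - b • pr 0) ![0, 0, 1, 0] = 0 := by
        show fderiv ℝ s p ![0, 0, 1, 0] - b * 0 = 0
        rw [zy p]; ring
      have e3 : (fderiv ℝ s p - b • pr 0) ![0, 0, 0, 1] = 0 := by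
        show fderiv ℝ s p ![0, 0, 0, 1] - b * 0 = 0
        rw [zz p]; ring
      ext v
      rw [lin_exp, e0, e1, e2, e3]
      simp
    funext p
    have := is_const_of_fderiv_eq_zero (fun q => (hq q).differentiableAt) hq0 p 0
    simp only [Pi.zero_apply, mul_zero, sub_zero] at this
    simp only [Pi.add_apply, Pi.smul_apply, smul_eq_mul, mul_one]
    linear_combination this
  · rintro ⟨a, b, rfl⟩
    have hf : ∀ p, HasFDerivAt (a • (fun _ => (1 : ℝ)) + b • fun p : V => p 0) (b • pr 0) p := by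
      intro p
      have := ((pr_deriv 0 p).const_mul b).const_add (a * 1)
      exact this
    have hf' : fderiv ℝ (a • (fun _ => (1 : ℝ)) + b • fun p : V => p 0) = fun _ => b • pr 0 :=
      funext fun p => (hf p).fderiv
    refine ⟨?_, fun x u v => ?_⟩
    · have : ContDiff ℝ ∞ (fun p : V => a * 1 + b * p 0) := by fun_prop
      exact this
    · have h0 : ∀ u v, Hess Gw (a • (fun _ => (1 : ℝ)) + b • fun p : V => p 0) x u v = 0 := by
        intro u v
        rw [Hess, hf', fderiv_fun_const]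
        simp [Gw_apply]
      simp only [h0, sch]
      simp [tr]

end Pool.Agent.X181.N4
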