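import Mathlib

/-!
# The ring of smooth functions on an open subset of `ℝⁿ` and its commuting derivations
-/

set_option autoImplicit false

namespace Pool.Agent.X181.DR

open scoped ContDiff

variable {n : ℕ} (U : Set (Fin n → ℝ))

open Classical in
/-- extension by zero -/
noncomputable def ext (f : U → ℝ) (p : Fin n → ℝ) : ℝ := if h : p ∈ U then f ⟨p, h⟩ else 0

variable {U}

theorem ext_apply (f : U → ℝ) (p : U) : ext U f p = f p := by
  simp [ext, p.2]

theorem ext_mem (f : U → ℝ) {p : Fin n → ℝ} (h : p ∈ U) : ext U f p = f ⟨p, h⟩ := by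
  simp [ext, h]

theorem ext_congr {F : (Fin n → ℝ) → ℝ} {f : U → ℝ} (h : ∀ p : U, f p = F p) :
    Set.EqOn (ext U f) F U := fun p hp => by rw [ext_mem f hp, h]

variable (U) in
/-- the smooth functions on `U` -/
noncomputable def Sm : Subalgebra ℝ (U → ℝ) where
  carrier := {f | ContDiffOn ℝ ∞ (ext U f) U}
  mul_mem' := by
    intro f g hf hg
    exact (ContDiffOn.mul hf hg).congr (ext_congr fun p => by
      simp only [Pi.mul_apply, ext_apply])
  add_mem' := by
    intro f g hf hg
    exact (ContDiffOn.add hf hg).congr (ext_congr fun p => by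
      simp only [Pi.add_apply, ext_apply])
  algebraMap_mem' := by
    intro r
    exact (contDiffOn_const (c := r)).congr (ext_congr fun p => rfl)

/-- a smooth function on `U` from a function on the whole space -/
noncomputable def mk (F : (Fin n → ℝ) → ℝ) (hF : ContDiffOn ℝ ∞ F U) : Sm U :=
  ⟨fun p => F p, hF.congr (ext_congr fun _ => rfl)⟩

theorem mk_apply (F : (Fin n → ℝ) → ℝ) (hF : ContDiffOn ℝ ∞ F U) (p : U) :
    (mk F hF : U → ℝ) p = F p := rfl

theorem smooth_ext (f : Sm U) : ContDiffOn ℝ ∞ (ext U f) U := f.2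

theorem diff_ext (hU : IsOpen U) (f : Sm U) {p : Fin n → ℝ} (hp : p ∈ U) :
    DifferentiableAt ℝ (ext U f) p :=
  ((smooth_ext f).contDiffAt (hU.mem_nhds hp)).differentiableAt (by simp)

theorem ff_congr (hU : IsOpen U) {F G : (Fin n → ℝ) → ℝ} (h : Set.EqOn F G U)
    {p : Fin n → ℝ} (hp : p ∈ U) : fderiv ℝ F p = fderiv ℝ G p :=
  Filter.EventuallyEq.fderiv_eq (by filter_upwards [hU.mem_nhds hp] with q hq using h hq)

theorem ext_add' (f g : Sm U) : Set.EqOn (ext U (f + g : Sm U)) (ext U f + ext U g) U :=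
  ext_congr fun p => by
    simp only [Subalgebra.coe_add, Pi.add_apply, ext_apply]

theorem ext_mul' (f g : Sm U) : Set.EqOn (ext U (f * g : Sm U)) (ext U f * ext U g) U :=
  ext_congr fun p => by
    simp only [Subalgebra.coe_mul, Pi.mul_apply, ext_apply]

theorem ext_smul' (r : ℝ) (g : Sm U) : Set.EqOn (ext U (r • g : Sm U)) (r • ext U g) U :=
  ext_congr fun p => by
    simp only [Subalgebra.coe_smul, Pi.smul_apply, ext_apply]

/-- the partial derivative -/
noncomputable def dd (hU : IsOpen U) (v : Fin n → ℝ) (f : Sm U) : Sm U :=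
  mk (fun p => fderiv ℝ (ext U f) p v)
    (((smooth_ext f).fderiv_of_isOpen hU (by simp)).clm_apply contDiffOn_const)

/-- the partial derivative, as a derivation of the ring of smooth functions -/
noncomputable def D (hU : IsOpen U) (v : Fin n → ℝ) : Derivation ℝ (Sm U) (Sm U) :=
  Derivation.mk'
    { toFun := dd hU v
      map_add' := by
        intro f g
        apply Subtype.ext
        funext p
        show fderiv ℝ (ext U (f + g : Sm U)) p v = fderiv ℝ (ext U f) p v + fderiv ℝ (ext U g) p v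
        rw [ff_congr hU (ext_add' f g) p.2, fderiv_add (diff_ext hU f p.2) (diff_ext hU g p.2),
          add_apply]
      map_smul' := by
        intro r f
        apply Subtype.ext
        funext p
        show fderiv ℝ (ext U (r • f : Sm U)) p v = r • fderiv ℝ (ext U f) p v
        rw [ff_congr hU (ext_smul' r f) p.2, fderiv_const_smul (diff_ext hU f p.2), smul_apply] }
    (by
      intro f g
      apply Subtype.ext
      funext p
      show fderiv ℝ (ext U (f * g : Sm U)) p v =
        (f : U → ℝ) p * fderiv ℝ (ext U g) p v + (g : U → ℝ) p * fderiv ℝ (ext U f) p v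
      rw [ff_congr hU (ext_mul' f g) p.2, fderiv_mul (diff_ext hU f p.2) (diff_ext hU g p.2)]
      simp only [add_apply, smul_apply, smul_eq_mul]
      rw [ext_apply, ext_apply])

theorem D_apply (hU : IsOpen U) (v : Fin n → ℝ) (f : Sm U) (p : U) :
    (D hU v f : U → ℝ) p = fderiv ℝ (ext U f) p v := rfl

theorem D_mk (hU : IsOpen U) (v : Fin n → ℝ) (F : (Fin n → ℝ) → ℝ)
    (hF : ContDiffOn ℝ ∞ F U) (p : U) : (D hU v (mk F hF) : U → ℝ) p = fderiv ℝ F p v := by
  have h : Set.EqOn (ext U (mk F hF)) F U := ext_congr fun _ => rfl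
  rw [D_apply, ff_congr hU h p.2]

theorem D_comm (hU : IsOpen U) (v w : Fin n → ℝ) (f : Sm U) :
    D hU v (D hU w f) = D hU w (D hU v f) := by
  apply Subtype.ext
  funext p
  have key : ∀ v w : Fin n → ℝ, (D hU v (D hU w f) : U → ℝ) p =
      fderiv ℝ (fderiv ℝ (ext U f)) p v w := by
    intro v w
    have h1 : Set.EqOn (ext U (D hU w f)) (fun q => fderiv ℝ (ext U f) q w) U :=
      ext_congr fun _ => rfl
    rw [D_apply, ff_congr hU h1 p.2]
    have h2 : HasFDerivAt (fderiv ℝ (ext U f)) (fderiv ℝ (fderiv ℝ (ext U f)) p) p :=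
      ((((smooth_ext f).fderiv_of_isOpen hU (m := ∞) (by simp)).contDiffAt
        (hU.mem_nhds p.2)).differentiableAt (by simp)).hasFDerivAt
    have h3 : HasFDerivAt (fun q => fderiv ℝ (ext U f) q w)
        ((ContinuousLinearMap.apply ℝ ℝ w).comp (fderiv ℝ (fderiv ℝ (ext U f)) p)) p :=
      (ContinuousLinearMap.apply ℝ ℝ w).hasFDerivAt.comp (p : Fin n → ℝ) h2
    rw [h3.fderiv]
    rfl
  rw [key, key]
  exact (((smooth_ext f).contDiffAt (hU.mem_nhds p.2)).isSymmSndFDerivAt (by
    rw [minSmoothness_of_isRCLikeNormedField]; exact WithTop.coe_le_coe.2 le_top)) v w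

theorem eq_of {f g : Sm U} (h : ∀ p : U, (f : U → ℝ) p = (g : U → ℝ) p) : f = g :=
  Subtype.ext (funext h)

/-- a nowhere vanishing smooth function is a unit -/
theorem unit_of {f : Sm U} (h : ∀ p : U, (f : U → ℝ) p ≠ 0) : IsUnit f := by
  have hs : ContDiffOn ℝ ∞ (fun p => (ext U f p)⁻¹) U :=
    (smooth_ext f).inv fun p hp => by rw [ext_mem _ hp]; exact h _
  refine IsUnit.of_mul_eq_one (mk _ hs) (eq_of fun p => ?_)
  show (f : U → ℝ) p * (ext U f p)⁻¹ = 1
  rw [ext_apply]
  exact mul_inv_cancel₀ (h p)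

instance : IsReduced (Sm U) := by
  constructor
  intro f hf
  obtain ⟨k, hk⟩ := hf
  refine eq_of fun p => ?_
  have h1 : ((f : U → ℝ) p) ^ k = 0 := by
    have := congrArg (fun g : Sm U => (g : U → ℝ) p) hk
    simpa using this
  exact eq_zero_of_pow_eq_zero h1

theorem nontriv (h : U.Nonempty) : (0 : Sm U) ≠ 1 := by
  obtain ⟨p, hp⟩ := h
  intro h0
  have := congrArg (fun g : Sm U => (g : U → ℝ) ⟨p, hp⟩) h0
  simp at this

end Pool.Agent.X181.DR
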