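import Pool.Agent.X181.DR.Elim3

/-!
# No conformal map from `dt dy + dx² + eˣ dy²` to `dt dy + dx² + (x³ + h(y) x) dy²`
-/

set_option autoImplicit false
set_option linter.unusedSimpArgs false
set_option linter.unusedSectionVars false

namespace Pool.Agent.X181.DR

section

variable {R : Type*} [CommRing R] [Algebra ℝ R]
variable (x y t : Derivation ℝ R R) (hyx : ∀ f, y (x f) = x (y f)) (htx : ∀ f, t (x f) = x (t f))
  (hty : ∀ f, t (y f) = y (t f))

/-- twice the pulled back metric -/
def Gm (X Y T G : R) (v w : Derivation ℝ R R) : R :=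
  v T * w Y + v Y * w T + (v X * w X + v X * w X) + (G * (v Y * w Y) + G * (v Y * w Y))

theorem Gm_symm (X Y T G : R) (v w : Derivation ℝ R R) : Gm X Y T G v w = Gm X Y T G w v := by
  unfold Gm; ring

theorem Gm_K {X Y T G A B C : R} (v w : Derivation ℝ R R)
    (hvx : ∀ f, v (x f) = x (v f)) (hvy : ∀ f, v (y f) = y (v f)) (hvt : ∀ f, v (t f) = t (v f))
    (hwx : ∀ f, w (x f) = x (w f)) (hwy : ∀ f, w (y f) = y (w f)) (hwt : ∀ f, w (t f) = t (w f))
    (k1 : B * x X + C * y X + A * t X = 0) (k2 : B * x Y + C * y Y + A * t Y = 0)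
    (k3 : B * x T + C * y T + A * t T = 1 + 1) (k4 : B * x G + C * y G + A * t G = 0) :
    B * x (Gm X Y T G v w) + C * y (Gm X Y T G v w) + A * t (Gm X Y T G v w) =
      -(v B * Gm X Y T G x w + v C * Gm X Y T G y w + v A * Gm X Y T G t w) -
      (w B * Gm X Y T G v x + w C * Gm X Y T G v y + w A * Gm X Y T G v t) := by
  have a1 := congrArg v k1
  have a2 := congrArg v k2
  have a3 := congrArg v k3
  have b1 := congrArg w k1
  have b2 := congrArg w k2
  have b3 := congrArg w k3
  simp only [map_add, Derivation.leibniz, smul_eq_mul, map_zero, Derivation.map_one_eq_zero,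
    add_zero, hvx, hvy, hvt, hwx, hwy, hwt] at a1 a2 a3 b1 b2 b3
  simp only [Gm, map_add, Derivation.leibniz, smul_eq_mul]
  linear_combination (2 * w X) * a1 + (2 * v X) * b1 + w Y * a3 + (w T + 2 * G * w Y) * a2 +
    (v T + 2 * G * v Y) * b2 + v Y * b3 + 2 * v Y * w Y * k4

theorem det3 {a1 b1 c1 a2 b2 c2 a3 b3 c3 G E H : R}
    (h11 : c1 * b1 + b1 * c1 + (a1 * a1 + a1 * a1) + (G * (b1 * b1) + G * (b1 * b1)) = E + E)
    (h12 : c1 * b2 + b1 * c2 + (a1 * a2 + a1 * a2) + (G * (b1 * b2) + G * (b1 * b2)) = 0)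
    (h13 : c1 * b3 + b1 * c3 + (a1 * a3 + a1 * a3) + (G * (b1 * b3) + G * (b1 * b3)) = 0)
    (h22 : c2 * b2 + b2 * c2 + (a2 * a2 + a2 * a2) + (G * (b2 * b2) + G * (b2 * b2)) =
      E * H + E * H)
    (h23 : c2 * b3 + b2 * c3 + (a2 * a3 + a2 * a3) + (G * (b2 * b3) + G * (b2 * b3)) = E)
    (h33 : c3 * b3 + b3 * c3 + (a3 * a3 + a3 * a3) + (G * (b3 * b3) + G * (b3 * b3)) = 0) :
    (a1 * (b2 * c3 - b3 * c2) - b1 * (a2 * c3 - a3 * c2) + c1 * (a2 * b3 - a3 * b2)) *
      (a1 * (b2 * c3 - b3 * c2) - b1 * (a2 * c3 - a3 * c2) + c1 * (a2 * b3 - a3 * b2)) =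
      E * E * E := by
  have hM : !![a1, b1, c1; a2, b2, c2; a3, b3, c3] * !![2, 0, 0; 0, 2 * G, 1; 0, 1, 0] *
      (!![a1, b1, c1; a2, b2, c2; a3, b3, c3]).transpose =
      !![E + E, 0, 0; 0, E * H + E * H, E; 0, E, (0 : R)] := by
    ext i j
    fin_cases i <;> fin_cases j <;> simp [Matrix.mul_apply, Fin.sum_univ_three]
    · linear_combination h11
    · linear_combination h12
    · linear_combination h13
    · linear_combination h12
    · linear_combination h22
    · linear_combination h23
    · linear_combination h13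
    · linear_combination h23
    · linear_combination h33
  have hd := congrArg Matrix.det hM
  rw [Matrix.det_mul, Matrix.det_mul, Matrix.det_transpose] at hd
  simp only [Matrix.det_fin_three] at hd
  simp at hd
  apply sub_eq_zero.1
  apply two_cancel (R := R)
  linear_combination hd

theorem sys3 {a1 b1 c1 a2 b2 c2 a3 b3 c3 p q r : R}
    (hu : IsUnit (a1 * (b2 * c3 - b3 * c2) - b1 * (a2 * c3 - a3 * c2) + c1 * (a2 * b3 - a3 * b2)))
    (h1 : a1 * p + b1 * q + c1 * r = 0) (h2 : a2 * p + b2 * q + c2 * r = 0)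
    (h3 : a3 * p + b3 * q + c3 * r = 0) : p = 0 ∧ q = 0 ∧ r = 0 := by
  refine ⟨unit_cancel hu ?_, unit_cancel hu ?_, unit_cancel hu ?_⟩
  · linear_combination (b2 * c3 - b3 * c2) * h1 - (b1 * c3 - b3 * c1) * h2 +
      (b1 * c2 - b2 * c1) * h3
  · linear_combination -(a2 * c3 - a3 * c2) * h1 + (a1 * c3 - a3 * c1) * h2 -
      (a1 * c2 - a2 * c1) * h3
  · linear_combination (a2 * b3 - a3 * b2) * h1 - (a1 * b3 - a3 * b1) * h2 +
      (a1 * b2 - a2 * b1) * h3

include hyx htx hty in
theorem contra3 [IsReduced R] [Nontrivial R] {X Y T E H q q' : R} (hHx : x H = H)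
    (hHy : y H = 0) (hHt : t H = 0) (hH : IsUnit H) (hE : IsUnit E)
    (hqx : x q = q' * x Y) (hqy : y q = q' * y Y) (hqt : t q = q' * t Y)
    (h11 : Gm X Y T (X * X * X + q * X) x x = E + E)
    (h12 : Gm X Y T (X * X * X + q * X) x y = 0)
    (h13 : Gm X Y T (X * X * X + q * X) x t = 0)
    (h22 : Gm X Y T (X * X * X + q * X) y y = E * H + E * H)
    (h23 : Gm X Y T (X * X * X + q * X) y t = E)
    (h33 : Gm X Y T (X * X * X + q * X) t t = 0) : False := by
  obtain ⟨G, hG⟩ : ∃ G, G = X * X * X + q * X := ⟨_, rfl⟩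
  rw [← hG] at h11 h12 h13 h22 h23 h33
  obtain ⟨F, hF⟩ := hE.exists_right_inv
  have hdet := det3 (a1 := x X) (b1 := x Y) (c1 := x T) (a2 := y X) (b2 := y Y) (c2 := y T)
    (a3 := t X) (b3 := t Y) (c3 := t T) (G := G) (E := E) (H := H) h11 h12 h13 h22 h23 h33
  have hu := isUnit_of_mul_isUnit_left (hdet.symm ▸ ((hE.mul hE).mul hE))
  obtain ⟨A, hA⟩ : ∃ A, A = F * (y Y + y Y - (H * t Y + H * t Y) - (H * t Y + H * t Y)) := ⟨_, rfl⟩
  obtain ⟨B, hB⟩ : ∃ B, B = F * x Y := ⟨_, rfl⟩
  obtain ⟨C, hC⟩ : ∃ C, C = F * t Y + F * t Y := ⟨_, rfl⟩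
  have hsys := sys3 (p := (B * x X + C * y X + A * t X) + (B * x X + C * y X + A * t X))
    (q := (B * x T + C * y T + A * t T) - (1 + 1) + 2 * G * (B * x Y + C * y Y + A * t Y))
    (r := B * x Y + C * y Y + A * t Y) hu
    (by
      unfold Gm at *
      linear_combination B * h11 + C * h12 + A * h13 + (2 * x Y) * hF + (2 * E) * hB)
    (by
      unfold Gm at *
      linear_combination B * h12 + C * h22 + A * h23 + (2 * y Y) * hF + (2 * E * H) * hC + E * hA)
    (by
      unfold Gm at *
      linear_combination B * h13 + C * h23 + A * h33 + (2 * t Y) * hF + E * hC)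
  obtain ⟨k1, k3, k2⟩ := hsys
  have k1 := two_cancel k1
  rw [k2] at k3
  have k3 : B * x T + C * y T + A * t T = 1 + 1 := by linear_combination k3
  have k4 : B * x G + C * y G + A * t G = 0 := by
    rw [hG]
    simp only [map_add, Derivation.leibniz, smul_eq_mul, hqx, hqy, hqt]
    linear_combination (3 * X * X + q) * k1 + X * q' * k2
  have sxy := Gm_symm X Y T G y x
  have sxt := Gm_symm X Y T G t x
  have syt := Gm_symm X Y T G t y
  rw [h12] at sxy
  rw [h13] at sxt
  rw [h23] at syt
  have K11 := Gm_K x y t (v := x) (w := x) (fun _ => rfl) (fun f => (hyx f).symm)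
    (fun f => (htx f).symm) (fun _ => rfl) (fun f => (hyx f).symm)
    (fun f => (htx f).symm) k1 k2 k3 k4
  have K12 := Gm_K x y t (v := x) (w := y) (fun _ => rfl) (fun f => (hyx f).symm)
    (fun f => (htx f).symm) hyx (fun f => rfl) (fun f => (hty f).symm) k1 k2 k3 k4
  have K13 := Gm_K x y t (v := x) (w := t) (fun _ => rfl) (fun f => (hyx f).symm)
    (fun f => (htx f).symm) htx hty (fun f => rfl) k1 k2 k3 k4
  have K22 := Gm_K x y t (v := y) (w := y) hyx (fun f => rfl) (fun f => (hty f).symm)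
    hyx (fun f => rfl) (fun f => (hty f).symm) k1 k2 k3 k4
  have K23 := Gm_K x y t (v := y) (w := t) hyx (fun f => rfl) (fun f => (hty f).symm)
    htx hty (fun f => rfl) k1 k2 k3 k4
  have K33 := Gm_K x y t (v := t) (w := t) htx hty (fun f => rfl)
    htx hty (fun f => rfl) k1 k2 k3 k4
  rw [h11, h12, h13, sxy, sxt] at K11
  rw [h11, h12, h13, h22, syt] at K12
  rw [h11, h12, h13, h23, h33] at K13
  rw [h12, sxy, h22, h23, syt] at K22
  rw [h13, sxy, h22, h23, h33] at K23
  rw [h13, sxt, h23, syt, h33] at K33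
  simp only [map_add, map_zero, Derivation.leibniz, smul_eq_mul, hHx, hHy, hHt, mul_zero, add_zero,
    zero_add] at K11 K12 K13 K22 K23 K33
  have e1 : t C = 0 := unit_cancel hE (two_cancel (by linear_combination K33))
  have e2 : t B + t B = -x C := by
    apply sub_eq_zero.1
    exact unit_cancel hE (by linear_combination K13)
  have e3 : t A = x B + x B - y C := by
    apply sub_eq_zero.1
    refine unit_cancel hE (two_cancel ?_)
    linear_combination 2 * K23 - K11 - 4 * E * H * e1
  have e4 : x A = -(H * x C + H * x C) - (y B + y B) := by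
    apply sub_eq_zero.1
    refine unit_cancel hE ?_
    linear_combination K12
  have e5 : y A = H * (x B + x B - B - (y C + y C)) := by
    apply sub_eq_zero.1
    refine unit_cancel hE (two_cancel ?_)
    linear_combination K22 - H * K11
  have nul : A * C + B * B + H * (C * C) = 0 := by
    rw [hA, hB, hC] at k2 ⊢
    linear_combination F * k2
  obtain ⟨C0, B0, xA, tA⟩ := elim3 x y t hyx htx hty hHx hHt hH e1 e2 e3 e4 e5 nul
  -- the end
  have xY : x Y = 0 := by
    rw [B0] at hB
    linear_combination (-x Y) * hF - E * hB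
  have tY : t Y = 0 := by
    rw [C0] at hC
    apply two_cancel
    linear_combination (-2 * t Y) * hF - E * hC
  rw [C0, B0] at k1 k3
  simp only [zero_mul, zero_add] at k1 k3
  have tX : t X = 0 := two_cancel (by linear_combination t T * k1 - t X * k3)
  have xtT : x (t T) = 0 := by
    have h := congrArg x k3
    simp only [Derivation.leibniz, smul_eq_mul, map_add, Derivation.map_one_eq_zero, xA, mul_zero,
      add_zero] at h
    exact two_cancel (by linear_combination t T * h - x (t T) * k3)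
  unfold Gm at h11 h12 h22 h23
  simp only [xY, tY, tX, mul_zero, zero_mul, add_zero, zero_add] at h11 h12 h22 h23
  have xyY : x (y Y) = 0 := by rw [← hyx, xY, map_zero]
  have xE : x E = 0 := by
    have h := congrArg x h23
    simp only [Derivation.leibniz, smul_eq_mul, xtT, xyY, mul_zero, add_zero] at h
    exact h.symm
  have h11' : x X * x X = E := by
    apply sub_eq_zero.1
    exact two_cancel (by linear_combination h11)
  have xxX : x (x X) = 0 := by
    have h := congrArg x h11'
    simp only [Derivation.leibniz, smul_eq_mul, xE] at h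
    refine unit_cancel hE (two_cancel ?_)
    linear_combination x X * h - 2 * x (x X) * h11'
  have xq : x q = 0 := by rw [hqx, xY, mul_zero]
  have hyY : IsUnit (y Y) := isUnit_of_mul_isUnit_left (h23.symm ▸ hE)
  have xxyX : x (x (y X)) = 0 := by
    have := congrArg y xxX
    simpa only [hyx, map_zero] using this
  have xxxT : x (x (x T)) = 0 := by
    have h := congrArg x (congrArg x h12)
    simp only [Derivation.leibniz, smul_eq_mul, map_add, map_zero, xyY, xxyX, xxX, mul_zero,
      add_zero, zero_add] at h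
    exact unit_cancel hyY h
  have xxxyT : x (x (x (y T))) = 0 := by
    have := congrArg y xxxT
    simpa only [hyx, map_zero] using this
  have h := congrArg x (congrArg x (congrArg x (congrArg x h22)))
  rw [hG] at h
  simp only [Derivation.leibniz, smul_eq_mul, map_add, map_zero, xyY, xxyX, xxX, xE, xq, xxxyT,
    hHx, mul_zero, add_zero, zero_add] at h
  have h2 : E * H = 0 := two_cancel h.symm
  exact (hE.mul hH).ne_zero h2

end

end Pool.Agent.X181.DR
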