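import Pool.Agent.X181.DR.Elim4

/-!
# No conformal map from `2 dt dz + dx² + dy² + eˣ cos y dt²` to `2 dt dz + dx² + dy² + x² dt²`
-/

set_option autoImplicit false
set_option linter.unusedSimpArgs false
set_option linter.unusedSectionVars false

namespace Pool.Agent.X181.DR

section

variable {R : Type*} [CommRing R] [Algebra ℝ R]
variable (t x y z : Derivation ℝ R R) (hyx : ∀ f, y (x f) = x (y f)) (htx : ∀ f, t (x f) = x (t f))
  (hty : ∀ f, t (y f) = y (t f)) (hzx : ∀ f, z (x f) = x (z f)) (hzy : ∀ f, z (y f) = y (z f))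
  (hzt : ∀ f, z (t f) = t (z f))

/-- the pulled back metric -/
def Gn (T X Y Z : R) (v w : Derivation ℝ R R) : R :=
  X * X * (v T * w T) + (v T * w Z + v Z * w T) + v X * w X + v Y * w Y

theorem Gn_symm (T X Y Z : R) (v w : Derivation ℝ R R) : Gn T X Y Z v w = Gn T X Y Z w v := by
  unfold Gn; ring

theorem Gn_K {T X Y Z A B C D : R} (v w : Derivation ℝ R R)
    (hvt : ∀ f, v (t f) = t (v f)) (hvx : ∀ f, v (x f) = x (v f)) (hvy : ∀ f, v (y f) = y (v f))
    (hvz : ∀ f, v (z f) = z (v f))
    (hwt : ∀ f, w (t f) = t (w f)) (hwx : ∀ f, w (x f) = x (w f)) (hwy : ∀ f, w (y f) = y (w f))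
    (hwz : ∀ f, w (z f) = z (w f))
    (k0 : C * t T + B * x T + D * y T + A * z T = 0)
    (k1 : C * t X + B * x X + D * y X + A * z X = 0)
    (k2 : C * t Y + B * x Y + D * y Y + A * z Y = 0)
    (k3 : C * t Z + B * x Z + D * y Z + A * z Z = 1) :
    C * t (Gn T X Y Z v w) + B * x (Gn T X Y Z v w) + D * y (Gn T X Y Z v w) +
        A * z (Gn T X Y Z v w) =
      -(v C * Gn T X Y Z t w + v B * Gn T X Y Z x w + v D * Gn T X Y Z y w +
        v A * Gn T X Y Z z w) -
      (w C * Gn T X Y Z v t + w B * Gn T X Y Z v x + w D * Gn T X Y Z v y +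
        w A * Gn T X Y Z v z) := by
  have a0 := congrArg v k0
  have a1 := congrArg v k1
  have a2 := congrArg v k2
  have a3 := congrArg v k3
  have b0 := congrArg w k0
  have b1 := congrArg w k1
  have b2 := congrArg w k2
  have b3 := congrArg w k3
  simp only [map_add, Derivation.leibniz, smul_eq_mul, map_zero, Derivation.map_one_eq_zero,
    add_zero, hvx, hvy, hvt, hvz, hwx, hwy, hwt, hwz] at a0 a1 a2 a3 b0 b1 b2 b3
  simp only [Gn, map_add, Derivation.leibniz, smul_eq_mul]
  linear_combination (2 * X * (v T * w T)) * k1 + (X * X * w T + w Z) * a0 +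
    (X * X * v T + v Z) * b0 + w T * a3 + v T * b3 + w X * a1 + v X * b1 + w Y * a2 + v Y * b2

theorem sys4 {M : Matrix (Fin 4) (Fin 4) R} {X E F H : R} (hF : E * F = 1)
    (h : M * !![X * X, 0, 0, 1; 0, 1, 0, 0; 0, 0, 1, 0; 1, 0, 0, 0] * M.transpose =
      !![E * H, 0, 0, E; 0, E, 0, 0; 0, 0, E, 0; E, 0, 0, 0]) {V : Fin 4 → R}
    (hV : M.mulVec V = 0) : V = 0 := by
  have h1 : !![E * H, 0, 0, E; 0, E, 0, 0; 0, 0, E, 0; E, 0, 0, 0] *
      !![0, 0, 0, F; 0, F, 0, 0; 0, 0, F, 0; F, 0, 0, -(F * H)] = 1 := by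
    ext i j
    fin_cases i <;> fin_cases j <;> simp [Matrix.mul_apply, Fin.sum_univ_four, hF]
    linear_combination (0 : R) * hF
  rw [← h, Matrix.mul_assoc, Matrix.mul_assoc] at h1
  have h2 := mul_eq_one_comm.1 h1
  have h3 := congrArg (fun N => Matrix.mulVec N V) h2
  simp only [Matrix.one_mulVec] at h3
  rw [← h3, ← Matrix.mulVec_mulVec, hV, Matrix.mulVec_zero]

include hyx htx hty hzx hzy hzt in
theorem contra4 [IsReduced R] [Nontrivial R] {T X Y Z E G H : R} (hHx : x H = H)
    (hHy : y H = -G) (hHt : t H = 0) (hHz : z H = 0) (hGx : x G = G) (hGy : y G = H)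
    (hGz : z G = 0) (hW : IsUnit (G * G + H * H)) (hE : IsUnit E)
    (h00 : Gn T X Y Z t t = E * H) (h01 : Gn T X Y Z t x = 0) (h02 : Gn T X Y Z t y = 0)
    (h03 : Gn T X Y Z t z = E) (h11 : Gn T X Y Z x x = E) (h12 : Gn T X Y Z x y = 0)
    (h13 : Gn T X Y Z x z = 0) (h22 : Gn T X Y Z y y = E) (h23 : Gn T X Y Z y z = 0)
    (h33 : Gn T X Y Z z z = 0) : False := by
  obtain ⟨F, hF⟩ := hE.exists_right_inv
  obtain ⟨A, hA⟩ : ∃ A, A = F * (t T - H * z T) := ⟨_, rfl⟩
  obtain ⟨B, hB⟩ : ∃ B, B = F * x T := ⟨_, rfl⟩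
  obtain ⟨C, hC⟩ : ∃ C, C = F * z T := ⟨_, rfl⟩
  obtain ⟨D, hD⟩ : ∃ D, D = F * y T := ⟨_, rfl⟩
  have h10 := Gn_symm T X Y Z x t
  have h20 := Gn_symm T X Y Z y t
  have h30 := Gn_symm T X Y Z z t
  have h21 := Gn_symm T X Y Z y x
  have h31 := Gn_symm T X Y Z z x
  have h32 := Gn_symm T X Y Z z y
  rw [h01] at h10
  rw [h02] at h20
  rw [h03] at h30
  rw [h12] at h21
  rw [h13] at h31
  rw [h23] at h32
  -- the field `K = C ∂_t + B ∂_x + D ∂_y + A ∂_z` is mapped to `∂_z`
  have hMM : !![t T, t X, t Y, t Z; x T, x X, x Y, x Z; y T, y X, y Y, y Z; z T, z X, z Y, z Z] *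
      !![X * X, 0, 0, 1; 0, 1, 0, 0; 0, 0, 1, 0; 1, 0, 0, 0] *
      (!![t T, t X, t Y, t Z; x T, x X, x Y, x Z; y T, y X, y Y, y Z;
        z T, z X, z Y, z Z]).transpose =
      !![E * H, 0, 0, E; 0, E, 0, 0; 0, 0, E, 0; E, 0, 0, 0] := by
    have g00 := h00
    have g01 := h01
    have g02 := h02
    have g03 := h03
    have g11 := h11
    have g12 := h12
    have g13 := h13
    have g22 := h22
    have g23 := h23
    have g33 := h33
    unfold Gn at g00 g01 g02 g03 g11 g12 g13 g22 g23 g33
    ext i j
    fin_cases i <;> fin_cases j <;> simp [Matrix.mul_apply, Fin.sum_univ_four]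
    · linear_combination g00
    · linear_combination g01
    · linear_combination g02
    · linear_combination g03
    · linear_combination g01
    · linear_combination g11
    · linear_combination g12
    · linear_combination g13
    · linear_combination g02
    · linear_combination g12
    · linear_combination g22
    · linear_combination g23
    · linear_combination g03
    · linear_combination g13
    · linear_combination g23
    · linear_combination g33
  have hsys := sys4 hF hMM (V := ![(C * t Z + B * x Z + D * y Z + A * z Z) - 1 +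
      X * X * (C * t T + B * x T + D * y T + A * z T),
      C * t X + B * x X + D * y X + A * z X, C * t Y + B * x Y + D * y Y + A * z Y,
      C * t T + B * x T + D * y T + A * z T])
    (by
      have g00 := h00
      have g01 := h01
      have g02 := h02
      have g03 := h03
      have g11 := h11
      have g12 := h12
      have g13 := h13
      have g22 := h22
      have g23 := h23
      have g33 := h33
      unfold Gn at g00 g01 g02 g03 g11 g12 g13 g22 g23 g33
      funext i
      fin_cases i <;> simp [Matrix.mulVec, dotProduct, Fin.sum_univ_four]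
      · linear_combination C * g00 + B * g01 + D * g02 + A * g03 + (t T) * hF + (E * H) * hC +
          E * hA
      · linear_combination C * g01 + B * g11 + D * g12 + A * g13 + (x T) * hF + E * hB
      · linear_combination C * g02 + B * g12 + D * g22 + A * g23 + (y T) * hF + E * hD
      · linear_combination C * g03 + B * g13 + D * g23 + A * g33 + (z T) * hF + E * hC)
  have k0 : C * t T + B * x T + D * y T + A * z T = 0 := by simpa using congrFun hsys 3
  have k1 : C * t X + B * x X + D * y X + A * z X = 0 := by simpa using congrFun hsys 1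
  have k2 : C * t Y + B * x Y + D * y Y + A * z Y = 0 := by simpa using congrFun hsys 2
  have k3 : C * t Z + B * x Z + D * y Z + A * z Z = 1 := by
    have h := congrFun hsys 0
    simp only [Matrix.cons_val_zero, Pi.zero_apply] at h
    rw [k0] at h
    linear_combination h
  have vt : (∀ f, t (t f) = t (t f)) ∧ (∀ f, t (x f) = x (t f)) ∧ (∀ f, t (y f) = y (t f)) ∧
    (∀ f, t (z f) = z (t f)) := ⟨fun _ => rfl, htx, hty, fun f => (hzt f).symm⟩
  have vx : (∀ f, x (t f) = t (x f)) ∧ (∀ f, x (x f) = x (x f)) ∧ (∀ f, x (y f) = y (x f)) ∧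
    (∀ f, x (z f) = z (x f)) := ⟨fun f => (htx f).symm, fun _ => rfl, fun f => (hyx f).symm,
      fun f => (hzx f).symm⟩
  have vy : (∀ f, y (t f) = t (y f)) ∧ (∀ f, y (x f) = x (y f)) ∧ (∀ f, y (y f) = y (y f)) ∧
    (∀ f, y (z f) = z (y f)) := ⟨fun f => (hty f).symm, hyx, fun _ => rfl,
      fun f => (hzy f).symm⟩
  have vz : (∀ f, z (t f) = t (z f)) ∧ (∀ f, z (x f) = x (z f)) ∧ (∀ f, z (y f) = y (z f)) ∧
    (∀ f, z (z f) = z (z f)) := ⟨hzt, hzx, hzy, fun _ => rfl⟩
  have K : ∀ v w : Derivation ℝ R R, ((∀ f, v (t f) = t (v f)) ∧ (∀ f, v (x f) = x (v f)) ∧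
      (∀ f, v (y f) = y (v f)) ∧ (∀ f, v (z f) = z (v f))) →
      ((∀ f, w (t f) = t (w f)) ∧ (∀ f, w (x f) = x (w f)) ∧
      (∀ f, w (y f) = y (w f)) ∧ (∀ f, w (z f) = z (w f))) → _ :=
    fun v w hv hw => Gn_K t x y z (A := A) (B := B) (C := C) (D := D) (T := T) (X := X) (Y := Y)
      (Z := Z) v w hv.1 hv.2.1 hv.2.2.1 hv.2.2.2 hw.1 hw.2.1 hw.2.2.1 hw.2.2.2 k0 k1 k2 k3
  have K00 := K t t vt vt
  have K01 := K t x vt vx
  have K02 := K t y vt vy
  have K03 := K t z vt vz
  have K11 := K x x vx vx
  have K12 := K x y vx vy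
  have K13 := K x z vx vz
  have K22 := K y y vy vy
  have K23 := K y z vy vz
  have K33 := K z z vz vz
  simp only [h00, h01, h02, h03, h10, h11, h12, h13, h20, h21, h22, h23, h30, h31, h32, h33,
    map_zero, Derivation.leibniz, smul_eq_mul, hHx, hHy, hHt, hHz, mul_zero, add_zero,
    zero_add, mul_neg] at K00 K01 K02 K03 K11 K12 K13 K22 K23 K33
  have e1 : z C = 0 := unit_cancel hE (two_cancel (by linear_combination K33))
  have e2 : z B = -x C := by
    apply sub_eq_zero.1
    exact unit_cancel hE (by linear_combination K13)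
  have e3 : z D = -y C := by
    apply sub_eq_zero.1
    exact unit_cancel hE (by linear_combination K23)
  have e4 : x B = y D := by
    apply sub_eq_zero.1
    exact unit_cancel hE (two_cancel (by linear_combination K11 - K22))
  have e5 : y B = -x D := by
    apply sub_eq_zero.1
    exact unit_cancel hE (by linear_combination K12)
  have e6 : z A = x B + x B - t C := by
    apply sub_eq_zero.1
    refine unit_cancel hE ?_
    linear_combination K03 - K11 - E * H * e1
  have e7 : x A = -(H * x C) - t B := by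
    apply sub_eq_zero.1
    refine unit_cancel hE ?_
    linear_combination K01
  have e8 : y A = -(H * y C) - t D := by
    apply sub_eq_zero.1
    refine unit_cancel hE ?_
    linear_combination K02
  have e9 : t A + t A = H * (x B + x B) - (B * H - D * G) - (H * t C + H * t C) := by
    apply sub_eq_zero.1
    refine unit_cancel hE ?_
    linear_combination K00 - H * K11
  have nul : A * C + A * C + B * B + D * D + H * (C * C) = 0 := by
    rw [hA, hB, hC, hD] at k0 ⊢
    linear_combination F * k0
  obtain ⟨C0, B0, D0, xA, yA⟩ := elim4 t x y z hyx htx hty hzx hzy hzt hHx hHy hHz hGx hGy hGz hW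
    e1 e2 e3 e4 e5 e6 e7 e8 e9 nul
  -- the end
  have xT : x T = 0 := by
    rw [B0] at hB
    linear_combination (-x T) * hF - E * hB
  have yT : y T = 0 := by
    rw [D0] at hD
    linear_combination (-y T) * hF - E * hD
  have zT : z T = 0 := by
    rw [C0] at hC
    linear_combination (-z T) * hF - E * hC
  rw [C0, B0, D0] at k1 k2 k3
  simp only [zero_mul, zero_add] at k1 k2 k3
  have zX : z X = 0 := by linear_combination z Z * k1 - z X * k3
  have zY : z Y = 0 := by linear_combination z Z * k2 - z Y * k3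
  have xzZ : x (z Z) = 0 := by
    have h := congrArg x k3
    simp only [Derivation.leibniz, smul_eq_mul, Derivation.map_one_eq_zero, xA, mul_zero,
      add_zero] at h
    linear_combination z Z * h - x (z Z) * k3
  have yzZ : y (z Z) = 0 := by
    have h := congrArg y k3
    simp only [Derivation.leibniz, smul_eq_mul, Derivation.map_one_eq_zero, yA, mul_zero,
      add_zero] at h
    linear_combination z Z * h - y (z Z) * k3
  unfold Gn at h00 h01 h02 h03 h11 h12 h22
  simp only [xT, yT, zT, zX, zY, mul_zero, zero_mul, add_zero, zero_add] at h00 h01 h02 h03 h11 h12 h22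
  have xtT : x (t T) = 0 := by rw [← htx, xT, map_zero]
  have ytT : y (t T) = 0 := by rw [← hty, yT, map_zero]
  have xE : x E = 0 := by
    have h := congrArg x h03
    simp only [Derivation.leibniz, smul_eq_mul, xtT, xzZ, mul_zero, add_zero] at h
    exact h.symm
  have yE : y E = 0 := by
    have h := congrArg y h03
    simp only [Derivation.leibniz, smul_eq_mul, ytT, yzZ, mul_zero, add_zero] at h
    exact h.symm
  have htT : IsUnit (t T) := isUnit_of_mul_isUnit_left (h03.symm ▸ hE)
  -- second derivatives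
  have j1 : x X * x (x X) + x Y * x (x Y) = 0 := by
    have h := congrArg x h11
    simp only [Derivation.leibniz, smul_eq_mul, map_add, xE] at h
    exact two_cancel (by linear_combination h)
  have j2 : x X * x (y X) + x Y * x (y Y) = 0 := by
    have h := congrArg y h11
    simp only [Derivation.leibniz, smul_eq_mul, map_add, yE, hyx] at h
    exact two_cancel (by linear_combination h)
  have j3 : y X * x (x X) + y Y * x (x Y) = 0 := by
    have h := congrArg x h12
    simp only [Derivation.leibniz, smul_eq_mul, map_add, map_zero] at h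
    linear_combination h - j2
  have hdet : (x X * y Y - x Y * y X) * (x X * y Y - x Y * y X) = E * E := by
    linear_combination (y X * y X + y Y * y Y) * h11 + E * h22 - (x X * y X + x Y * y Y) * h12
  have hdu : IsUnit (x X * y Y - x Y * y X) :=
    isUnit_of_mul_isUnit_left (hdet.symm ▸ (hE.mul hE))
  have xxX : x (x X) = 0 := unit_cancel hdu (by linear_combination y Y * j1 - x Y * j3)
  have xxY : x (x Y) = 0 := unit_cancel hdu (by linear_combination x X * j3 - y X * j1)
  have xxtX : x (x (t X)) = 0 := by rw [← htx, ← htx, xxX, map_zero]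
  have xxtY : x (x (t Y)) = 0 := by rw [← htx, ← htx, xxY, map_zero]
  have xxxZ : x (x (x Z)) = 0 := by
    have h := congrArg x (congrArg x h01)
    simp only [Derivation.leibniz, smul_eq_mul, map_add, map_zero, xtT, xxX, xxY, xxtX, xxtY,
      mul_zero, add_zero, zero_add] at h
    exact unit_cancel htT h
  have xxxtZ : x (x (x (t Z))) = 0 := by rw [← htx, ← htx, ← htx, xxxZ, map_zero]
  have h := congrArg x (congrArg x (congrArg x h00))
  simp only [Derivation.leibniz, smul_eq_mul, map_add, map_zero, xtT, xxX, xxY, xxtX, xxtY, xE,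
    xxxtZ, hHx, mul_zero, add_zero, zero_add] at h
  have hH : H = 0 := unit_cancel hE (by linear_combination -h)
  have hG : G = 0 := by
    have := hHy
    rw [hH, map_zero] at this
    linear_combination this
  rw [hH, hG] at hW
  simp at hW

end

end Pool.Agent.X181.DR
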