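import Mathlib

/-!
# Elimination in dimension three
-/

set_option autoImplicit false
set_option linter.unusedSimpArgs false
set_option linter.unusedSectionVars false

namespace Pool.Agent.X181.DR

section

variable {R : Type*} [CommRing R] [Algebra ℝ R]

theorem two_cancel {a : R} (h : a + a = 0) : a = 0 := by
  have h1 : (2 : ℝ) • a = 0 := by rw [two_smul, h]
  have h2 : a = (1 / 2 : ℝ) • ((2 : ℝ) • a) := by rw [smul_smul]; norm_num
  rw [h2, h1, smul_zero]

theorem unit_cancel {H a : R} (hH : IsUnit H) (h : H * a = 0) : a = 0 :=
  (hH.mul_right_eq_zero).1 h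

variable (x y t : Derivation ℝ R R) (hyx : ∀ f, y (x f) = x (y f)) (htx : ∀ f, t (x f) = x (t f))
  (hty : ∀ f, t (y f) = y (t f))

include hyx htx hty in
/-- the null conformal Killing fields of `dt dy + dx² + eˣ dy²` -/
theorem elim3 [IsReduced R] {A B C H : R} (hHx : x H = H) (hHt : t H = 0)
    (hH : IsUnit H) (e1 : t C = 0) (e2 : t B + t B = -x C) (e3 : t A = x B + x B - y C)
    (e4 : x A = -(H * x C + H * x C) - (y B + y B))
    (e5 : y A = H * (x B + x B - B - (y C + y C)))
    (nul : A * C + B * B + H * (C * C) = 0) :
    C = 0 ∧ B = 0 ∧ x A = 0 ∧ t A = 0 := by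
  -- mixed derivatives
  have f6 : x (x B) = x (y C) := by
    have h1 := congrArg t e4
    have h2 := congrArg x e3
    have h3 := congrArg y e2
    simp only [map_add, map_sub, map_neg, Derivation.leibniz, smul_eq_mul, hyx, htx, hty, e1, hHt,
      map_zero, mul_zero, add_zero, neg_zero, zero_sub] at h1 h2 h3
    apply sub_eq_zero.1
    apply two_cancel (R := R)
    linear_combination h1 - h2 - h3
  have hBt : ∀ z : Derivation ℝ R R, z (t B) + z (t B) = -z (x C) := fun z => by
    have := congrArg z e2
    simpa only [map_add, map_neg] using this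
  have f7 : x (x (x C)) = 0 := by
    have h1 := congrArg t f6
    have h2 := congrArg x (hBt x)
    simp only [map_add, map_sub, map_neg, hyx, htx, hty, e1, map_zero] at h1 h2
    linear_combination h2 - 2 * h1
  have f8 : x (y B) + x (y B) - y (y C) = H * (-x (x C)) + H * ((1 / 2 : ℝ) • x C) := by
    have h1 := congrArg t e5
    have h2 := congrArg y e3
    have h3 := hBt x
    simp only [map_add, map_sub, map_neg, Derivation.leibniz, smul_eq_mul, hyx, htx, hty, e1, hHt,
      map_zero, mul_zero, add_zero, sub_zero] at h1 h2 h3
    have h4 : (1 / 2 : ℝ) • x C = -t B := by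
      have : x C = -(t B + t B) := by linear_combination e2
      rw [this, smul_neg, ← two_smul ℝ (t B), smul_smul]
      norm_num
    rw [h4]
    linear_combination h1 - h2 + H * h3
  have f9 : x (x (y C)) = 0 := by
    have h1 := congrArg t f8
    have h2 := congrArg x (hBt y)
    simp only [map_add, map_sub, map_neg, Derivation.leibniz, smul_eq_mul, hyx, htx, hty, e1, hHt,
      map_zero, mul_zero, add_zero, sub_zero, Derivation.map_smul, smul_zero, neg_zero] at h1 h2
    linear_combination h2 - h1
  have f10 : x (y (y C)) + x (y (y C)) = H * (x C - x (x C)) := by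
    have h1 := congrArg x f8
    have h2 := congrArg y f6
    simp only [map_add, map_sub, map_neg, Derivation.leibniz, smul_eq_mul, hyx, htx, hty, e1, hHx,
      Derivation.map_smul, f7, mul_zero, neg_zero, zero_add] at h1 h2
    have h4 : ∀ a : R, (1 / 2 : ℝ) • a + (1 / 2 : ℝ) • a = a := fun a => by
      rw [← add_smul]; norm_num
    have h5 := h4 (x C)
    have h6 := h4 (x (x C))
    linear_combination 2 * h1 - 4 * h2 + H * h5 + H * h6
  have f11 : x C = 0 := by
    have h1 := congrArg x f10
    have h2 := congrArg y f9
    simp only [map_add, map_sub, map_neg, Derivation.leibniz, smul_eq_mul, hyx, htx, hty, e1, hHx,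
      f7, map_zero] at h1 h2
    refine unit_cancel hH ?_
    linear_combination -h1 + 2 * h2
  simp only [f11, map_zero, mul_zero, add_zero, neg_zero, zero_sub, smul_zero] at e2 e4 f6 f8 f9 f10
  have hyC : x (y C) = 0 := by rw [← hyx, f11, map_zero]
  rw [hyC] at f6
  have htB : t B = 0 := two_cancel e2
  have g13 : -(y (y B) + y (y B)) = H * (x B - B - (y C + y C)) := by
    have h1 := congrArg y e4
    have h2 := congrArg x e5
    simp only [map_add, map_sub, map_neg, Derivation.leibniz, smul_eq_mul, hyx, hHx,
      f6, hyC] at h1 h2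
    linear_combination -h1 + h2
  have g14 : -(x (y (y B)) + x (y (y B))) = H * (-B - (y C + y C)) := by
    have h1 := congrArg x g13
    simp only [map_add, map_sub, map_neg, Derivation.leibniz, smul_eq_mul, hyx, hHx,
      f6, hyC] at h1
    linear_combination h1
  have hxxyy : x (x (y (y B))) = 0 := by
    have h1 := congrArg y (congrArg y f6)
    simpa only [hyx, map_zero] using h1
  have g15 : B + x B + (y C + y C) = 0 := by
    have h1 := congrArg x g14
    simp only [map_add, map_sub, map_neg, Derivation.leibniz, smul_eq_mul, hyx, hHx,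
      f6, hyC, hxxyy] at h1
    refine unit_cancel hH ?_
    linear_combination h1
  have hxB : x B = 0 := by
    have h1 := congrArg x g15
    simp only [map_add, hyC, f6, map_zero, add_zero] at h1
    exact h1
  rw [hxB, add_zero] at g15
  have hyyC : y (y C) = 0 := by
    have h1 : x (y B) = 0 := by rw [← hyx, hxB, map_zero]
    rw [h1] at f8
    linear_combination -f8
  have hyB : y B = 0 := by
    have h1 := congrArg y g15
    simp only [map_add, hyyC, map_zero, add_zero] at h1
    exact h1
  have hxA : x A = 0 := by rw [e4, hyB]; simp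
  have hCC : C = 0 := by
    have h1 := congrArg x nul
    simp only [map_add, Derivation.leibniz, smul_eq_mul, hHx, hxA, hxB, f11, mul_zero, add_zero,
      zero_add, map_zero] at h1
    have h2 := unit_cancel (a := C * C) hH (by linear_combination h1)
    exact pow_eq_zero_iff (two_ne_zero) |>.1 (by rw [sq]; exact h2)
  have hB : B = 0 := by
    rw [hCC] at nul
    refine pow_eq_zero_iff (two_ne_zero) |>.1 ?_
    rw [sq]
    linear_combination nul
  refine ⟨hCC, hB, hxA, ?_⟩
  rw [e3, hCC, hB]
  simp

end

end Pool.Agent.X181.DR
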