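import Pool.Agent.X181.DR.Elim3

/-!
# Elimination in dimension four
-/

set_option autoImplicit false
set_option linter.unusedSimpArgs false
set_option linter.unusedSectionVars false

namespace Pool.Agent.X181.DR

section

variable {R : Type*} [CommRing R] [Algebra ℝ R]
variable (t x y z : Derivation ℝ R R) (hyx : ∀ f, y (x f) = x (y f)) (htx : ∀ f, t (x f) = x (t f))
  (hty : ∀ f, t (y f) = y (t f)) (hzx : ∀ f, z (x f) = x (z f)) (hzy : ∀ f, z (y f) = y (z f))
  (hzt : ∀ f, z (t f) = t (z f))

theorem solve2 {G H p q : R} (hW : IsUnit (G * G + H * H)) (h1 : G * p + H * q = 0)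
    (h2 : H * p = G * q) : p = 0 ∧ q = 0 :=
  ⟨unit_cancel hW (by linear_combination G * h1 + H * h2),
    unit_cancel hW (by linear_combination H * h1 - G * h2)⟩

include hyx htx hty hzx hzy hzt in
/-- the null conformal Killing fields of `2 dt dz + dx² + dy² + eˣ cos y dt²` -/
theorem elim4 [IsReduced R] {A B C D G H : R} (hHx : x H = H) (hHy : y H = -G)
    (hHz : z H = 0) (hGx : x G = G) (hGy : y G = H) (hGz : z G = 0)
    (hW : IsUnit (G * G + H * H))
    (e1 : z C = 0) (e2 : z B = -x C) (e3 : z D = -y C) (e4 : x B = y D) (e5 : y B = -x D)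
    (e6 : z A = x B + x B - t C) (e7 : x A = -(H * x C) - t B) (e8 : y A = -(H * y C) - t D)
    (e9 : t A + t A = H * (x B + x B) - (B * H - D * G) - (H * t C + H * t C))
    (nul : A * C + A * C + B * B + D * D + H * (C * C) = 0) :
    C = 0 ∧ B = 0 ∧ D = 0 ∧ x A = 0 ∧ y A = 0 := by
  have s1 : x (x C) = y (y C) := by
    have h1 := congrArg z e4
    rw [hzx, hzy, e2, e3] at h1
    simp only [map_neg] at h1
    linear_combination -h1
  have s2 : x (y C) = 0 := by
    have h1 := congrArg z e5
    simp only [map_neg] at h1
    rw [hzx, hzy, e2, e3] at h1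
    simp only [map_neg, hyx] at h1
    exact two_cancel (by linear_combination -h1)
  have s3 : x (x B) = x (t C) := by
    have h1 := congrArg z e7
    have h2 := congrArg x e6
    simp only [map_add, map_sub, map_neg, Derivation.leibniz, smul_eq_mul, hzx, hzt, e1, hHz,
      map_zero, mul_zero, add_zero, neg_zero, zero_sub, e2, htx] at h1 h2
    apply sub_eq_zero.1
    apply two_cancel (R := R)
    linear_combination h1 - h2
  have s4 : x (y B) = y (t C) := by
    have h1 := congrArg z e8
    have h2 := congrArg y e6
    simp only [map_add, map_sub, map_neg, Derivation.leibniz, smul_eq_mul, hzx, hzy, hzt, e1, hHz,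
      map_zero, mul_zero, add_zero, neg_zero, zero_sub, e3, hty, hyx] at h1 h2
    apply sub_eq_zero.1
    apply two_cancel (R := R)
    linear_combination h1 - h2
  have s5 : x (x (x C)) = 0 := by
    have h1 := congrArg z s3
    simp only [map_neg, hzx, hzt, e1, e2, map_zero] at h1
    linear_combination -h1
  have s5' : x (x (y C)) = 0 := by rw [s2, map_zero]
  have s6 : x (t B) + x (t B) + (x (t B) + x (t B)) - (t (t C) + t (t C)) =
      -(H * x (x C) + H * x (x C)) + H * x C - G * y C := by
    have h1 := congrArg z e9
    have h2 := congrArg t e6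
    simp only [map_add, map_sub, map_neg, Derivation.leibniz, smul_eq_mul, hzx, hzy, hzt, e1, hHz,
      hGz, map_zero, mul_zero, add_zero, neg_zero, zero_sub, sub_zero, e2, e3, hty, htx] at h1 h2
    linear_combination h1 - 2 * h2
  have s7 : x (t (t C)) + x (t (t C)) = -(H * x (x C)) + H * x C - G * y C := by
    have h1 := congrArg x s6
    have h2 := congrArg t s3
    simp only [map_add, map_sub, map_neg, Derivation.leibniz, smul_eq_mul, s5, s2, hHx, hGx,
      map_zero, mul_zero, add_zero, neg_zero, zero_sub, zero_add, htx] at h1 h2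
    linear_combination h1 - 4 * h2
  have s8 : y (t (t C)) + y (t (t C)) = G * x (x C) - G * x C - H * y C := by
    have h1 := congrArg y s6
    have h2 := congrArg t s4
    simp only [map_add, map_sub, map_neg, Derivation.leibniz, smul_eq_mul, s2, hHy, hGy, hyx,
      map_zero, mul_zero, add_zero, neg_zero, zero_sub, zero_add, htx, hty] at h1 h2
    linear_combination h1 - 4 * h2 + G * s1
  have s9 : G * x C + H * y C = 0 := by
    have h1 := congrArg y s7
    have h2 := congrArg t (congrArg t s2)
    simp only [map_add, map_sub, map_neg, Derivation.leibniz, smul_eq_mul, s2, hHy, hGy, hyx,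
      map_zero, mul_zero, add_zero, neg_zero, zero_sub, zero_add, htx, hty] at h1
    simp only [map_zero, htx, hty] at h2
    linear_combination h1 - 2 * h2 + G * s1
  have s10 : H * x C = G * y C := by
    have h1 := congrArg x s7
    have h2 := congrArg y s8
    have h3 := congrArg t (congrArg t s1)
    simp only [map_add, map_sub, map_neg, Derivation.leibniz, smul_eq_mul, s2, s5, hHy, hGy, hHx,
      hGx, hyx, map_zero, mul_zero, add_zero, neg_zero, zero_sub, zero_add, htx, hty] at h1 h2 h3
    apply sub_eq_zero.1
    apply two_cancel (R := R)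
    linear_combination -h1 + h2 + 2 * h3 + H * s1
  obtain ⟨xC, yC⟩ := solve2 hW s9 s10
  have xtC : x (t C) = 0 := by rw [← htx, xC, map_zero]
  have ytC : y (t C) = 0 := by rw [← hty, yC, map_zero]
  rw [xtC] at s3
  rw [ytC] at s4
  have ytB : y (t B) = 0 := by
    have h1 := congrArg y e7
    have h2 := congrArg x e8
    have h3 := congrArg t e5
    simp only [map_add, map_sub, map_neg, xC, yC, hyx, htx, hty, mul_zero, neg_zero, zero_sub]
      at h1 h2 h3
    apply two_cancel
    linear_combination h1 - h2 + h3
  have xtD : x (t D) = 0 := by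
    have h3 := congrArg t e5
    simp only [map_neg, htx, hty, ytB] at h3
    linear_combination h3
  have s15 : -(t (t B) + t (t B)) = H * (x B - B - (t C + t C)) + G * (x D + D) := by
    have h1 := congrArg x e9
    have h2 := congrArg t e7
    simp only [map_add, map_sub, map_neg, Derivation.leibniz, smul_eq_mul, xC, hHx, hGx, htx,
      xtC, s3, map_zero, mul_zero, add_zero, neg_zero, zero_sub, zero_add] at h1 h2
    linear_combination h1 - 2 * h2
  have s18 : -(t (t D) + t (t D)) = -(G * (x B - B - (t C + t C))) + H * (x D + D) := by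
    have h1 := congrArg y e9
    have h2 := congrArg t e8
    simp only [map_add, map_sub, map_neg, Derivation.leibniz, smul_eq_mul, yC, hHy, hGy, hty, hyx,
      ytC, s4, map_zero, mul_zero, add_zero, neg_zero, zero_sub, zero_add] at h1 h2
    linear_combination h1 - 2 * h2 - G * e4 - H * e5
  have xxD : x (x D) = 0 := by
    have h := congrArg x e5
    rw [s4, map_neg] at h
    linear_combination h
  have s17 : H * (B + (t C + t C) + x B) = G * (x D + x D + x D + D) := by
    have h1 := congrArg x (congrArg x s15)
    have h2 := congrArg t (congrArg t s3)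
    simp only [map_add, map_sub, map_neg, Derivation.leibniz, smul_eq_mul, hHx, hGx, htx,
      xtC, s3, xxD, map_zero, mul_zero, add_zero, neg_zero, zero_sub, zero_add] at h1
    simp only [map_zero, htx, hty] at h2
    linear_combination h1 + 2 * h2
  have s20 : G * (B + (t C + t C) + x B) + H * (x D + x D + x D + D) = 0 := by
    have h1 := congrArg x (congrArg x s18)
    have h2 := congrArg x (congrArg t xtD)
    simp only [map_add, map_sub, map_neg, Derivation.leibniz, smul_eq_mul, hHx, hGx, htx,
      xtC, s3, xxD, map_zero, mul_zero, add_zero, neg_zero, zero_sub, zero_add] at h1 h2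
    linear_combination -h1 - 2 * h2
  obtain ⟨P0, Q0⟩ := solve2 hW s20 s17
  have xB : x B = 0 := by
    have := congrArg x P0
    simpa only [map_add, xtC, s3, map_zero, add_zero, zero_add] using this
  have xD : x D = 0 := by
    have := congrArg x Q0
    simpa only [map_add, xxD, map_zero, add_zero, zero_add] using this
  have hD : D = 0 := by
    rw [xD] at Q0
    simpa using Q0
  have hyA : y A = 0 := by rw [e8, yC, hD]; simp
  have xtB : x (t B) = 0 := by rw [← htx, xB, map_zero]
  have xxA : x (x A) = 0 := by
    rw [e7, xC]
    simp [xtB]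
  have c1 : H * (C * C) = 0 := by
    have h := congrArg x (congrArg x nul)
    simp only [map_add, Derivation.leibniz, smul_eq_mul, hHx, xC, xB, hD, xxA, mul_zero, zero_mul,
      add_zero, zero_add, map_zero] at h
    linear_combination h
  have c2 : G * (C * C) = 0 := by
    have h := congrArg y nul
    have yB : y B = 0 := by rw [e5, xD, neg_zero]
    simp only [map_add, Derivation.leibniz, smul_eq_mul, hHy, yC, yB, hD, hyA, mul_zero, zero_mul,
      add_zero, zero_add, map_zero] at h
    linear_combination -h
  have c3 : C * C = 0 := unit_cancel hW (by linear_combination G * c2 + H * c1)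
  have hC : C = 0 := pow_eq_zero_iff (two_ne_zero) |>.1 (by rw [sq]; exact c3)
  have hB : B = 0 := by
    refine pow_eq_zero_iff (two_ne_zero) |>.1 ?_
    rw [sq]
    rw [hC, hD] at nul
    linear_combination nul
  refine ⟨hC, hB, hD, ?_, hyA⟩
  rw [e7, hC, hB]
  simp

end

end Pool.Agent.X181.DR
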