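import Pool.Agent.X181.DR.Basic
import Pool.Agent.X181.DR.Contra3
import Pool.Agent.X181.Gauss

/-!
# Conformal geometry of Lorentzian metrics in dimension three
-/

set_option autoImplicit false

namespace Pool.Agent.X181.N3

open scoped ContDiff
open Pool.Agent.X181

/-- `ℝ³` with the coordinates `(x, y, t)` -/
abbrev V := Fin 3 → ℝ

/-- `g` is a smooth metric of signature `(1,2)` on the open set `U`: at each point there is a basis
`b` with `g(b₀,b₀) = -1`, `g(b₁,b₁) = g(b₂,b₂) = 1`, `g(b_i,b_j) = 0` for `i ≠ j`. -/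
structure IsLorentz (U : Set V) (g : V → V → V → ℝ) : Prop where
  smooth : ∀ u v, ContDiffOn ℝ ∞ (fun x => g x u v) U
  symm : ∀ x ∈ U, ∀ u v, g x u v = g x v u
  add : ∀ x ∈ U, ∀ u u' v, g x (u + u') v = g x u v + g x u' v
  smul : ∀ x ∈ U, ∀ (r : ℝ) (u v : V), g x (r • u) v = r * g x u v
  signature : ∀ x ∈ U, ∃ b : Fin 3 → V, ∀ i j, g x (b i) (b j) =
    if i = j then (if i = 0 then -1 else 1) else 0

/-- the Ricci tensor: `Ric(v, w)` is the trace of `u ↦ R(u, v) w` -/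
noncomputable def Ric (Γ : V → V →L[ℝ] V →L[ℝ] V) (x v w : V) : ℝ :=
  ∑ i, Riem Γ x (Pi.single i 1) v w i

/-- the matrix of `g` -/
def gmat (g : V → V → V → ℝ) (x : V) : Matrix (Fin 3) (Fin 3) ℝ :=
  Matrix.of fun i j => g x (Pi.single i 1) (Pi.single j 1)

/-- the scalar curvature -/
noncomputable def Scal (g : V → V → V → ℝ) (Γ : V → V →L[ℝ] V →L[ℝ] V) (x : V) : ℝ :=
  ∑ i, ∑ j, (gmat g x)⁻¹ i j * Ric Γ x (Pi.single i 1) (Pi.single j 1)

/-- the Schouten tensor `P = Ric - (1/4) Scal g` -/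
noncomputable def Sch (g : V → V → V → ℝ) (Γ : V → V →L[ℝ] V →L[ℝ] V) (x u v : V) : ℝ :=
  Ric Γ x u v - 1 / 4 * Scal g Γ x * g x u v

/-- the covariant derivative `∇_a P_bc` -/
noncomputable def covP (g : V → V → V → ℝ) (Γ : V → V →L[ℝ] V →L[ℝ] V) (x a b c : V) : ℝ :=
  fderiv ℝ (fun y => Sch g Γ y b c) x a - Sch g Γ x (Γ x a b) c - Sch g Γ x b (Γ x a c)

/-- the Cotton tensor `Y_cab = ∇_a P_bc - ∇_b P_ac` -/
noncomputable def Cotton (g : V → V → V → ℝ) (Γ : V → V →L[ℝ] V →L[ℝ] V) (x c a b : V) : ℝ :=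
  covP g Γ x a b c - covP g Γ x b a c

/-- `k` is a conformal Killing field: `L_k g = λ g` for a smooth function `λ` -/
def IsCKF (U : Set V) (g : V → V → V → ℝ) (k : V → V) : Prop :=
  ContDiffOn ℝ ∞ k U ∧ ∃ l : V → ℝ, ContDiffOn ℝ ∞ l U ∧ ∀ x ∈ U, ∀ u v,
    fderiv ℝ (fun y => g y u v) x (k x) + g x (fderiv ℝ k x u) v + g x u (fderiv ℝ k x v) =
      l x * g x u v

/-- the metric `g_h = ½ (dt dy + dy dt) + dx² + (x³ + h(y) x) dy²` -/
noncomputable def gh (h : ℝ → ℝ) (p u v : V) : ℝ :=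
  1 / 2 * (u 2 * v 1 + u 1 * v 2) + u 0 * v 0 + (p 0 ^ 3 + h (p 1) * p 0) * (u 1 * v 1)

/-- the metric `½ (dt dy + dy dt) + dx² + eˣ dy²` -/
noncomputable def gx (p u v : V) : ℝ :=
  1 / 2 * (u 2 * v 1 + u 1 * v 2) + u 0 * v 0 + Real.exp (p 0) * (u 1 * v 1)

/-! ### the connection -/

/-- a constant bilinear map -/
noncomputable def C0 : V →L[ℝ] V →L[ℝ] V := LinearMap.toContinuousBilinearMap
  (LinearMap.mk₂ ℝ (fun u v : V => (![-(1 / 2) * (u 1 * v 1), 0, u 0 * v 1 + u 1 * v 0] : V))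
    (fun u u' v => by funext i; fin_cases i <;> simp <;> ring)
    (fun r u v => by funext i; fin_cases i <;> simp <;> ring)
    (fun u v v' => by funext i; fin_cases i <;> simp <;> ring)
    (fun r u v => by funext i; fin_cases i <;> simp <;> ring))

theorem C0_apply (u v : V) : C0 u v = ![-(1 / 2) * (u 1 * v 1), 0, u 0 * v 1 + u 1 * v 0] := rfl

/-- the Levi-Civita connection of `gx` -/
noncomputable def Gx (p : V) : V →L[ℝ] V →L[ℝ] V := Real.exp (p 0) • C0

theorem Gx_apply (p u v : V) : Gx p u v =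
    ![-(1 / 2) * (Real.exp (p 0) * (u 1 * v 1)), 0, Real.exp (p 0) * (u 0 * v 1 + u 1 * v 0)] := by
  rw [Gx, smul_apply, smul_apply, C0_apply]
  funext i; fin_cases i <;> simp <;> ring

theorem exp_deriv (p : V) : HasFDerivAt (fun p : V => Real.exp (p 0))
    (Real.exp (p 0) • ContinuousLinearMap.proj (R := ℝ) (φ := fun _ : Fin 3 => ℝ) 0) p := by
  have h : HasFDerivAt (fun p : V => p 0)
      (ContinuousLinearMap.proj (R := ℝ) (φ := fun _ : Fin 3 => ℝ) 0) p :=
    (ContinuousLinearMap.proj (R := ℝ) (φ := fun _ : Fin 3 => ℝ) 0).hasFDerivAt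
  exact h.exp

theorem fderiv_smul_c {E F : Type*} [NormedAddCommGroup E] [NormedSpace ℝ E]
    [NormedAddCommGroup F] [NormedSpace ℝ F] {f : E → ℝ} {f' : E →L[ℝ] ℝ} {p : E}
    (h : HasFDerivAt f f' p) (c : F) (u : E) : fderiv ℝ (fun p => f p • c) p u = f' u • c := by
  rw [(h.smul_const c).fderiv]; rfl

theorem smooth_smul_c {E F : Type*} [NormedAddCommGroup E] [NormedSpace ℝ E]
    [NormedAddCommGroup F] [NormedSpace ℝ F] {f : E → ℝ}
    (h : ContDiff ℝ ∞ f) (c : F) : ContDiff ℝ ∞ (fun p => f p • c) :=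
  h.smul contDiff_const

theorem Gx_deriv (p u : V) : fderiv ℝ Gx p u = (Real.exp (p 0) * u 0) • C0 :=
  fderiv_smul_c (exp_deriv p) C0 u

theorem gx_smooth (u v : V) : ContDiff ℝ ∞ (fun x => gx x u v) := by
  unfold gx; fun_prop

theorem gx_isLorentz : IsLorentz Set.univ gx := by
  refine ⟨fun u v => (gx_smooth u v).contDiffOn, fun x _ u v => ?_, fun x _ u u' v => ?_,
    fun x _ r u v => ?_, fun x _ => ?_⟩
  · unfold gx; ring
  · simp only [gx, Pi.add_apply]; ring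
  · simp only [gx, Pi.smul_apply, smul_eq_mul]; ring
  · -- t - coordinates: b0 = e_y - (1 + H) e_t, b1 = e_x, b2 = e_y + (1 - H) e_t
    refine ⟨![![0, 1, -(1 + Real.exp (x 0))], ![1, 0, 0], ![0, 1, 1 - Real.exp (x 0)]],
      fun i j => ?_⟩
    fin_cases i <;> fin_cases j <;> simp [gx] <;> ring

theorem isLC : IsLeviCivita Set.univ gx Gx := by
  refine ⟨?_, fun x _ u v => ?_, fun x _ t u v => ?_⟩
  · have : ContDiff ℝ ∞ Gx := smooth_smul_c (by fun_prop) C0
    exact this.contDiffOn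
  · rw [Gx_apply, Gx_apply]
    funext i; fin_cases i <;> simp <;> ring
  · have h1 : HasFDerivAt (fun y => gx y u v) ((u 1 * v 1) • (Real.exp (x 0) •
        ContinuousLinearMap.proj (R := ℝ) (φ := fun _ : Fin 3 => ℝ) 0)) x := by
      have := ((exp_deriv x).mul_const (u 1 * v 1)).const_add
        (1 / 2 * (u 2 * v 1 + u 1 * v 2) + u 0 * v 0)
      exact this
    rw [h1.fderiv, Gx_apply, Gx_apply]
    simp [gx]
    ring

theorem riem (p u v w : V) : Riem Gx p u v w = Real.exp (p 0) • (u 0 • C0 v w - v 0 • C0 u w) := by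
  rw [Riem, Gx_deriv, Gx_deriv]
  simp only [smul_apply, Gx_apply, C0_apply]
  funext i; fin_cases i <;> simp <;> ring

theorem ric (p v w : V) : Ric Gx p v w = -(1 / 2) * (Real.exp (p 0) * (v 1 * w 1)) := by
  simp only [Ric, riem, C0_apply, Fin.sum_univ_three]
  simp
  try ring

theorem gmat_inv (p : V) : (gmat gx p)⁻¹ = !![1, 0, 0; 0, 0, 2; 0, 2, -4 * Real.exp (p 0)] := by
  apply Matrix.inv_eq_right_inv
  ext i j
  fin_cases i <;> fin_cases j <;> simp [gmat, gx, Matrix.mul_apply, Fin.sum_univ_three] <;> ring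

theorem scal (p : V) : Scal gx Gx p = 0 := by
  simp only [Scal, gmat_inv, ric, Fin.sum_univ_three]
  simp

theorem sch (p v w : V) : Sch gx Gx p v w = -(1 / 2) * (Real.exp (p 0) * (v 1 * w 1)) := by
  rw [Sch, scal, ric]; ring

theorem covp (p a b c : V) : covP gx Gx p a b c =
    -(1 / 2) * (Real.exp (p 0) * a 0 * (b 1 * c 1)) := by
  have h1 : HasFDerivAt (fun y => Sch gx Gx y b c) (-(1 / 2 : ℝ) • ((b 1 * c 1) • (Real.exp (p 0) •
      ContinuousLinearMap.proj (R := ℝ) (φ := fun _ : Fin 3 => ℝ) 0))) p := by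
    have := ((exp_deriv p).mul_const (b 1 * c 1)).const_mul (-(1 / 2))
    simp only [sch]
    exact this
  rw [covP, h1.fderiv, sch, sch, Gx_apply, Gx_apply]
  simp
  ring

theorem cotton (p c a b : V) : Cotton gx Gx p c a b =
    -(1 / 2) * (Real.exp (p 0) * ((a 0 * b 1 - b 0 * a 1) * c 1)) := by
  rw [Cotton, covp, covp]; ring

/-- the vector field `∂_t` -/
def kk (_ : V) : V := ![0, 0, 1]

theorem kk_ckf : IsCKF Set.univ gx kk := by
  refine ⟨contDiffOn_const, fun _ => 0, contDiffOn_const, fun x _ u v => ?_⟩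
  have h0 : fderiv ℝ kk x = 0 := by
    have : kk = fun _ => ![0, 0, 1] := rfl
    rw [this, fderiv_fun_const]; rfl
  have h1 : HasFDerivAt (fun y => gx y u v) ((u 1 * v 1) • (Real.exp (x 0) •
      ContinuousLinearMap.proj (R := ℝ) (φ := fun _ : Fin 3 => ℝ) 0)) x := by
    have := ((exp_deriv x).mul_const (u 1 * v 1)).const_add
      (1 / 2 * (u 2 * v 1 + u 1 * v 2) + u 0 * v 0)
    exact this
  rw [h0, h1.fderiv]
  simp [gx, kk]

end Pool.Agent.X181.N3
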