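import Pool.Agent.X181.DR.Basic
import Pool.Agent.X181.DR.Contra4
import Pool.Agent.X181.DR.AE4
import Pool.Agent.X181.Gauss

/-!
# Conformal geometry of Lorentzian metrics in dimension four
-/

set_option autoImplicit false
set_option linter.unnecessarySeqFocus false

namespace Pool.Agent.X181.N4

open scoped ContDiff
open Pool.Agent.X181

/-- `ℝ⁴` with the coordinates `(t, x, y, z)` -/
abbrev V := Fin 4 → ℝ

/-- `g` is a smooth Lorentzian metric on `ℝ⁴`: at each point there is a basis `b` with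
`g(b₀,b₀) = -1`, `g(b_i,b_i) = 1` for `i > 0`, `g(b_i,b_j) = 0` for `i ≠ j`. -/
structure IsLorentz (g : V → V → V → ℝ) : Prop where
  smooth : ∀ u v, ContDiff ℝ ∞ (fun x => g x u v)
  symm : ∀ x u v, g x u v = g x v u
  add : ∀ x u u' v, g x (u + u') v = g x u v + g x u' v
  smul : ∀ x (r : ℝ) (u v : V), g x (r • u) v = r * g x u v
  signature : ∀ x, ∃ b : Fin 4 → V, ∀ i j, g x (b i) (b j) =
    if i = j then (if i = 0 then -1 else 1) else 0

/-- the Ricci tensor: `Ric(v, w)` is the trace of `u ↦ R(u, v) w` -/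
noncomputable def Ric (Γ : V → V →L[ℝ] V →L[ℝ] V) (x v w : V) : ℝ :=
  ∑ i, Riem Γ x (Pi.single i 1) v w i

/-- the matrix of `g` -/
def gmat (g : V → V → V → ℝ) (x : V) : Matrix (Fin 4) (Fin 4) ℝ :=
  Matrix.of fun i j => g x (Pi.single i 1) (Pi.single j 1)

/-- the `g`-trace of a bilinear form at `x` -/
noncomputable def tr (g : V → V → V → ℝ) (x : V) (S : V → V → ℝ) : ℝ :=
  ∑ i, ∑ j, (gmat g x)⁻¹ i j * S (Pi.single i 1) (Pi.single j 1)

/-- the Schouten tensor `P = (1/2) (Ric - (Sc/6) g)` -/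
noncomputable def Sch (g : V → V → V → ℝ) (Γ : V → V →L[ℝ] V →L[ℝ] V) (x u v : V) : ℝ :=
  1 / 2 * (Ric Γ x u v - tr g x (Ric Γ x) / 6 * g x u v)

/-- the Weyl tensor `W = R - g ∧ P` (Kulkarni-Nomizu product) -/
noncomputable def Weyl (g : V → V → V → ℝ) (Γ : V → V →L[ℝ] V →L[ℝ] V) (x u v w z : V) : ℝ :=
  g x (Riem Γ x u v w) z - (Sch g Γ x v w * g x u z - Sch g Γ x u w * g x v z +
    g x v w * Sch g Γ x u z - g x u w * Sch g Γ x v z)

/-- the Hessian `∇∇σ` -/
noncomputable def Hess (Γ : V → V →L[ℝ] V →L[ℝ] V) (s : V → ℝ) (x u v : V) : ℝ :=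
  fderiv ℝ (fderiv ℝ s) x u v - fderiv ℝ s x (Γ x u v)

/-- `σ` is an almost Einstein scale: the trace-free part of `∇∇σ + P σ` vanishes -/
def IsAEScale (g : V → V → V → ℝ) (Γ : V → V →L[ℝ] V →L[ℝ] V) (s : V → ℝ) : Prop :=
  ContDiff ℝ ∞ s ∧ ∀ x u v, Hess Γ s x u v + Sch g Γ x u v * s x -
    1 / 4 * tr g x (fun u v => Hess Γ s x u v + Sch g Γ x u v * s x) * g x u v = 0

/-- the metric `g_pp = e^{-√2 t} (x² dt² + 2 dt dz + dx² + dy²)` -/
noncomputable def gpp (p u v : V) : ℝ :=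
  Real.exp (-(√2 * p 0)) * (p 1 ^ 2 * (u 0 * v 0) + (u 0 * v 3 + u 3 * v 0) + u 1 * v 1 + u 2 * v 2)

noncomputable def HH (p : V) : ℝ := Real.exp (p 1) * Real.cos (p 2)
noncomputable def GG (p : V) : ℝ := Real.exp (p 1) * Real.sin (p 2)

/-- the metric `2 dt dz + dx² + dy² + eˣ cos y dt²` -/
noncomputable def gw (p u v : V) : ℝ :=
  (u 0 * v 3 + u 3 * v 0) + u 1 * v 1 + u 2 * v 2 + HH p * (u 0 * v 0)

/-! ### the connection -/

noncomputable def C1 : V →L[ℝ] V →L[ℝ] V := LinearMap.toContinuousBilinearMap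
  (LinearMap.mk₂ ℝ (fun u v : V => (![0, -(1 / 2) * (u 0 * v 0), 0,
      1 / 2 * (u 0 * v 1 + u 1 * v 0)] : V))
    (fun u u' v => by funext i; fin_cases i <;> simp <;> ring)
    (fun r u v => by funext i; fin_cases i <;> simp <;> ring)
    (fun u v v' => by funext i; fin_cases i <;> simp <;> ring)
    (fun r u v => by funext i; fin_cases i <;> simp <;> ring))

noncomputable def C2 : V →L[ℝ] V →L[ℝ] V := LinearMap.toContinuousBilinearMap
  (LinearMap.mk₂ ℝ (fun u v : V => (![0, 0, 1 / 2 * (u 0 * v 0),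
      -(1 / 2) * (u 0 * v 2 + u 2 * v 0)] : V))
    (fun u u' v => by funext i; fin_cases i <;> simp <;> ring)
    (fun r u v => by funext i; fin_cases i <;> simp <;> ring)
    (fun u v v' => by funext i; fin_cases i <;> simp <;> ring)
    (fun r u v => by funext i; fin_cases i <;> simp <;> ring))

theorem C1_apply (u v : V) : C1 u v = ![0, -(1 / 2) * (u 0 * v 0), 0,
      1 / 2 * (u 0 * v 1 + u 1 * v 0)] := rfl
theorem C2_apply (u v : V) : C2 u v = ![0, 0, 1 / 2 * (u 0 * v 0),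
      -(1 / 2) * (u 0 * v 2 + u 2 * v 0)] := rfl

/-- the Levi-Civita connection of `gw` -/
noncomputable def Gw (p : V) : V →L[ℝ] V →L[ℝ] V := HH p • C1 + GG p • C2

theorem Gw_apply (p u v : V) : Gw p u v =
    ![0, -(1 / 2) * (HH p * (u 0 * v 0)), 1 / 2 * (GG p * (u 0 * v 0)),
      1 / 2 * (HH p * (u 0 * v 1 + u 1 * v 0)) - 1 / 2 * (GG p * (u 0 * v 2 + u 2 * v 0))] := by
  rw [Gw]
  simp only [add_apply, smul_apply, C1_apply, C2_apply]
  funext i; fin_cases i <;> simp <;> ring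

abbrev pr (i : Fin 4) : V →L[ℝ] ℝ := ContinuousLinearMap.proj (R := ℝ) (φ := fun _ : Fin 4 => ℝ) i

theorem pr_deriv (i : Fin 4) (p : V) : HasFDerivAt (fun p : V => p i) (pr i) p :=
  (pr i).hasFDerivAt

theorem HH_deriv (p : V) : HasFDerivAt HH (HH p • pr 1 - GG p • pr 2) p := by
  have h1 := (pr_deriv 1 p).exp
  have h2 := (pr_deriv 2 p).cos
  refine (h1.mul h2).congr_fderiv ?_
  ext v
  simp [HH, GG]
  ring

theorem GG_deriv (p : V) : HasFDerivAt GG (GG p • pr 1 + HH p • pr 2) p := by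
  have h1 := (pr_deriv 1 p).exp
  have h2 := (pr_deriv 2 p).sin
  refine (h1.mul h2).congr_fderiv ?_
  ext v
  simp [HH, GG]
  ring

theorem HH_smooth : ContDiff ℝ ∞ HH := by unfold HH; fun_prop
theorem GG_smooth : ContDiff ℝ ∞ GG := by unfold GG; fun_prop

theorem fderiv_comb {E F : Type*} [NormedAddCommGroup E] [NormedSpace ℝ E]
    [NormedAddCommGroup F] [NormedSpace ℝ F] {f g : E → ℝ} {f' g' : E →L[ℝ] ℝ} {p : E}
    (h : HasFDerivAt f f' p) (k : HasFDerivAt g g' p) (c d : F) (u : E) :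
    fderiv ℝ (fun p => f p • c + g p • d) p u = f' u • c + g' u • d := by
  have h2 : HasFDerivAt (fun p => f p • c + g p • d) _ p := (h.smul_const c).add (k.smul_const d)
  rw [h2.fderiv]; rfl

theorem smooth_comb {E F : Type*} [NormedAddCommGroup E] [NormedSpace ℝ E]
    [NormedAddCommGroup F] [NormedSpace ℝ F] {f g : E → ℝ}
    (h : ContDiff ℝ ∞ f) (k : ContDiff ℝ ∞ g) (c d : F) :
    ContDiff ℝ ∞ (fun p => f p • c + g p • d) :=
  (h.smul contDiff_const).add (k.smul contDiff_const)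

theorem Gw_deriv (p u : V) : fderiv ℝ Gw p u =
    (HH p * u 1 - GG p * u 2) • C1 + (GG p * u 1 + HH p * u 2) • C2 :=
  fderiv_comb (HH_deriv p) (GG_deriv p) C1 C2 u

theorem gw_smooth (u v : V) : ContDiff ℝ ∞ (fun x => gw x u v) := by
  have := HH_smooth
  unfold gw; fun_prop

theorem gw_isLorentz : IsLorentz gw := by
  refine ⟨gw_smooth, fun x u v => ?_, fun x u u' v => ?_, fun x r u v => ?_, fun x => ?_⟩
  · unfold gw; ring
  · simp only [gw, Pi.add_apply]; ring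
  · simp only [gw, Pi.smul_apply, smul_eq_mul]; ring
  · refine ⟨![![1, 0, 0, -(1 + HH x) / 2], ![0, 1, 0, 0], ![0, 0, 1, 0], ![1, 0, 0, (1 - HH x) / 2]],
      fun i j => ?_⟩
    fin_cases i <;> fin_cases j <;> simp [gw] <;> ring

theorem gw_deriv (x u v : V) : HasFDerivAt (fun y => gw y u v)
    ((u 0 * v 0) • (HH x • pr 1 - GG x • pr 2)) x := by
  have := ((HH_deriv x).mul_const (u 0 * v 0)).const_add
    ((u 0 * v 3 + u 3 * v 0) + u 1 * v 1 + u 2 * v 2)
  exact this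

theorem isLC : IsLeviCivita Set.univ gw Gw := by
  refine ⟨?_, fun x _ u v => ?_, fun x _ t u v => ?_⟩
  · have : ContDiff ℝ ∞ Gw := smooth_comb HH_smooth GG_smooth C1 C2
    exact this.contDiffOn
  · rw [Gw_apply, Gw_apply, mul_comm (v 0) (u 0)]
    funext i; fin_cases i <;> simp <;> ring
  · rw [(gw_deriv x u v).fderiv, Gw_apply, Gw_apply]
    simp [gw]
    ring

theorem riem (p u v w : V) : Riem Gw p u v w =
    ((HH p * u 1 - GG p * u 2) • C1 v w + (GG p * u 1 + HH p * u 2) • C2 v w) -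
    ((HH p * v 1 - GG p * v 2) • C1 u w + (GG p * v 1 + HH p * v 2) • C2 u w) := by
  rw [Riem, Gw_deriv, Gw_deriv]
  simp only [add_apply, smul_apply, Gw_apply, C1_apply, C2_apply]
  funext i; fin_cases i <;> simp <;> ring

theorem ric (p v w : V) : Ric Gw p v w = 0 := by
  simp only [Ric, riem, C1_apply, C2_apply, Fin.sum_univ_four]
  simp
  try ring

theorem sch (p v w : V) : Sch gw Gw p v w = 0 := by
  have h : Ric Gw p = fun _ _ => 0 := by funext v w; exact ric p v w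
  rw [Sch, ric]
  simp [tr, h]

theorem weyl (p u v w z : V) : Weyl gw Gw p u v w z = gw p (Riem Gw p u v w) z := by
  rw [Weyl, sch, sch, sch, sch]; ring

theorem weyl_ne (p : V) : ∃ u v w z, Weyl gw Gw p u v w z ≠ 0 := by
  by_contra h
  push Not at h
  have h1 := h ![0, 1, 0, 0] ![1, 0, 0, 0] ![1, 0, 0, 0] ![0, 1, 0, 0]
  have h2 := h ![0, 1, 0, 0] ![1, 0, 0, 0] ![1, 0, 0, 0] ![0, 0, 1, 0]
  rw [weyl, riem] at h1 h2
  simp [gw, C1_apply, C2_apply] at h1 h2
  have h3 : HH p ^ 2 + GG p ^ 2 = Real.exp (p 1) ^ 2 := by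
    simp only [HH, GG, mul_pow]
    rw [← mul_add, Real.cos_sq_add_sin_sq, mul_one]
  rw [h1, h2] at h3
  have := Real.exp_pos (p 1)
  nlinarith

theorem gmat_inv (p : V) : (gmat gw p)⁻¹ =
    !![0, 0, 0, 1; 0, 1, 0, 0; 0, 0, 1, 0; 1, 0, 0, -HH p] := by
  apply Matrix.inv_eq_right_inv
  ext i j
  fin_cases i <;> fin_cases j <;> simp [gmat, gw, Matrix.mul_apply, Fin.sum_univ_four]

end Pool.Agent.X181.N4
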