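import Pool.Agent.X181.DR.N3

/-!
# Transfer to the ring of smooth functions
-/

set_option autoImplicit false

namespace Pool.Agent.X181.N3

open scoped ContDiff
open Pool.Agent.X181 Pool.Agent.X181.DR

theorem comp_deriv {φ : V → V} {p : V} (h : DifferentiableAt ℝ φ p) (i : Fin 3) (v : V) :
    fderiv ℝ (fun q => φ q i) p v = fderiv ℝ φ p v i := by
  have h1 : HasFDerivAt (fun q => φ q i) ((ContinuousLinearMap.proj (R := ℝ)
      (φ := fun _ : Fin 3 => ℝ) i).comp (fderiv ℝ φ p)) p :=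
    (ContinuousLinearMap.proj (R := ℝ) (φ := fun _ : Fin 3 => ℝ) i).hasFDerivAt.comp p
      h.hasFDerivAt
  rw [h1.fderiv]; rfl

theorem no_map {U : Set V} (hU : IsOpen U) (hne : U.Nonempty) {h : ℝ → ℝ}
    (hh : ContDiff ℝ ∞ h) {φ : V → V} (hφ : ContDiffOn ℝ ∞ φ U) {u : V → ℝ}
    (hu : ContDiffOn ℝ ∞ u U) : ¬∀ p ∈ U, ∀ v w,
      gh h (φ p) (fderiv ℝ φ p v) (fderiv ℝ φ p w) = Real.exp (2 * u p) * gx p v w := by
  intro H
  have hcomp : ∀ i, ContDiffOn ℝ ∞ (fun p => φ p i) U := fun i => contDiffOn_pi.1 hφ i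
  have hd : ∀ p : U, DifferentiableAt ℝ φ p := fun p =>
    (hφ.contDiffAt (hU.mem_nhds p.2)).differentiableAt (by simp)
  have hE : ContDiffOn ℝ ∞ (fun p => Real.exp (2 * u p)) U := (contDiffOn_const.mul hu).exp
  have hHs : ContDiffOn ℝ ∞ (fun p : V => Real.exp (p 0)) U :=
    ContDiff.contDiffOn (by fun_prop)
  have hq : ContDiffOn ℝ ∞ (fun p => h (φ p 1)) U := hh.comp_contDiffOn (hcomp 1)
  have hh' : ContDiff ℝ ∞ (deriv h) := hh.deriv' 
  have hq' : ContDiffOn ℝ ∞ (fun p => deriv h (φ p 1)) U := hh'.comp_contDiffOn (hcomp 1)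
  have : Nontrivial (Sm U) := ⟨⟨0, 1, nontriv hne⟩⟩
  have hq1 : ∀ v : V, D hU v (mk _ hq) = mk _ hq' * D hU v (mk _ (hcomp 1)) := by
    intro v
    refine eq_of fun p => ?_
    rw [D_mk, Subalgebra.coe_mul, Pi.mul_apply, D_mk, mk_apply]
    have h1 : HasFDerivAt (fun q => φ q 1) (fderiv ℝ (fun q => φ q 1) p) p :=
      (((hcomp 1).contDiffAt (hU.mem_nhds p.2)).differentiableAt (by simp)).hasFDerivAt
    have h2 : HasDerivAt h (deriv h (φ p 1)) (φ p 1) :=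
      (hh.differentiable (by simp)).differentiableAt.hasDerivAt
    have h3 := h2.comp_hasFDerivAt (p : V) h1
    have h4 : fderiv ℝ (fun q => h (φ q 1)) p = _ := h3.fderiv
    rw [h4]; rfl
  have hH1 : ∀ v : V, D hU v (mk _ hHs) = (v 0) • mk _ hHs := by
    intro v
    refine eq_of fun p => ?_
    rw [D_mk, (exp_deriv (p : V)).fderiv]
    show Real.exp ((p : V) 0) * v 0 = v 0 * Real.exp ((p : V) 0)
    ring
  have hGm : ∀ v w : V, ∀ p : U, ((Gm (mk _ (hcomp 0)) (mk _ (hcomp 1)) (mk _ (hcomp 2))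
      (mk _ (hcomp 0) * mk _ (hcomp 0) * mk _ (hcomp 0) + mk _ hq * mk _ (hcomp 0))
      (D hU v) (D hU w) : Sm U) : U → ℝ) p = Real.exp (2 * u p) * gx p v w +
        Real.exp (2 * u p) * gx p v w := by
    intro v w p
    rw [← H p p.2 v w]
    simp only [Gm, Subalgebra.coe_add, Subalgebra.coe_mul, Pi.add_apply, Pi.mul_apply, D_mk,
      mk_apply, comp_deriv (hd p), gh]
    ring
  refine contra3 (D hU ![1, 0, 0]) (D hU ![0, 1, 0]) (D hU ![0, 0, 1])
    (fun f => D_comm hU _ _ f) (fun f => D_comm hU _ _ f) (fun f => D_comm hU _ _ f)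
    (X := mk _ (hcomp 0)) (Y := mk _ (hcomp 1)) (T := mk _ (hcomp 2)) (E := mk _ hE)
    (H := mk _ hHs) (q := mk _ hq) (q' := mk _ hq') ?_ ?_ ?_ ?_ ?_ (hq1 _) (hq1 _) (hq1 _)
    ?_ ?_ ?_ ?_ ?_ ?_
  · rw [hH1]; simp
  · rw [hH1]; simp
  · rw [hH1]; simp
  · exact unit_of fun p => (Real.exp_pos _).ne'
  · exact unit_of fun p => (Real.exp_pos _).ne'
  all_goals
    refine eq_of fun p => ?_
    rw [hGm]
    simp only [Subalgebra.coe_add, Subalgebra.coe_mul, Pi.add_apply, Pi.mul_apply, mk_apply,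
      Subalgebra.coe_zero, Pi.zero_apply]
    simp [gx]
  all_goals ring

end Pool.Agent.X181.N3
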