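import Pool.Agent.X181.DR.N4

/-!
# Transfer to the ring of smooth functions
-/

set_option autoImplicit false

namespace Pool.Agent.X181.N4

open scoped ContDiff
open Pool.Agent.X181 Pool.Agent.X181.DR

theorem comp_deriv {φ : V → V} {p : V} (h : DifferentiableAt ℝ φ p) (i : Fin 4) (v : V) :
    fderiv ℝ (fun q => φ q i) p v = fderiv ℝ φ p v i := by
  have h1 : HasFDerivAt (fun q => φ q i) ((pr i).comp (fderiv ℝ φ p)) p :=
    (pr i).hasFDerivAt.comp p h.hasFDerivAt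
  rw [h1.fderiv]; rfl

variable {U : Set V}

noncomputable def mH (U : Set V) : Sm U := mk HH HH_smooth.contDiffOn
noncomputable def mG (U : Set V) : Sm U := mk GG GG_smooth.contDiffOn

theorem D_H (hU : IsOpen U) (v : V) : D hU v (mH U) = (v 1) • mH U - (v 2) • mG U := by
  refine eq_of fun p => ?_
  rw [mH, D_mk, (HH_deriv (p : V)).fderiv]
  show HH p * v 1 - GG p * v 2 = v 1 * HH p - v 2 * GG p
  ring

theorem D_G (hU : IsOpen U) (v : V) : D hU v (mG U) = (v 1) • mG U + (v 2) • mH U := by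
  refine eq_of fun p => ?_
  rw [mG, D_mk, (GG_deriv (p : V)).fderiv]
  show GG p * v 1 + HH p * v 2 = v 1 * GG p + v 2 * HH p
  ring

theorem unitGH : IsUnit (mG U * mG U + mH U * mH U) := by
  refine unit_of fun p => ?_
  show GG p * GG p + HH p * HH p ≠ 0
  have h3 : GG p * GG p + HH p * HH p = Real.exp ((p : V) 1) ^ 2 := by
    simp only [HH, GG]
    linear_combination Real.exp ((p : V) 1) ^ 2 * Real.cos_sq_add_sin_sq ((p : V) 2)
  rw [h3]
  exact (pow_pos (Real.exp_pos _) 2).ne'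

theorem no_map (hU : IsOpen U) (hne : U.Nonempty) {φ : V → V} (hφ : ContDiffOn ℝ ∞ φ U)
    {s : V → ℝ} (hs : ContDiffOn ℝ ∞ s U) (hpos : ∀ p ∈ U, 0 < s p) : ¬∀ p ∈ U, ∀ v w,
      gpp (φ p) (fderiv ℝ φ p v) (fderiv ℝ φ p w) = s p ^ 2 * gw p v w := by
  intro K
  have hcomp : ∀ i, ContDiffOn ℝ ∞ (fun p => φ p i) U := fun i => contDiffOn_pi.1 hφ i
  have hd : ∀ p : U, DifferentiableAt ℝ φ p := fun p =>
    (hφ.contDiffAt (hU.mem_nhds p.2)).differentiableAt (by simp)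
  have hE : ContDiffOn ℝ ∞ (fun p => Real.exp (√2 * φ p 0) * s p ^ 2) U :=
    ((contDiffOn_const.mul (hcomp 0)).exp).mul (hs.pow 2)
  have : Nontrivial (Sm U) := ⟨⟨0, 1, nontriv hne⟩⟩
  have hGn : ∀ v w : V, ∀ p : U, ((Gn (mk _ (hcomp 0)) (mk _ (hcomp 1)) (mk _ (hcomp 2))
      (mk _ (hcomp 3)) (D hU v) (D hU w) : Sm U) : U → ℝ) p =
        (Real.exp (√2 * φ p 0) * s p ^ 2) * gw p v w := by
    intro v w p
    have h1 : Real.exp (√2 * φ p 0) * Real.exp (-(√2 * φ p 0)) = 1 := by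
      rw [← Real.exp_add]; simp
    have h2 : (Real.exp (√2 * φ p 0) * s p ^ 2) * gw p v w =
        Real.exp (√2 * φ p 0) * (s p ^ 2 * gw p v w) := by ring
    rw [h2, ← K p p.2 v w]
    simp only [Gn, Subalgebra.coe_add, Subalgebra.coe_mul, Pi.add_apply, Pi.mul_apply, D_mk,
      mk_apply, comp_deriv (hd p), gpp]
    linear_combination -(φ p 1 ^ 2 * (fderiv ℝ φ p v 0 * fderiv ℝ φ p w 0) +
      (fderiv ℝ φ p v 0 * fderiv ℝ φ p w 3 + fderiv ℝ φ p v 3 * fderiv ℝ φ p w 0) +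
      fderiv ℝ φ p v 1 * fderiv ℝ φ p w 1 + fderiv ℝ φ p v 2 * fderiv ℝ φ p w 2) * h1
  refine contra4 (D hU ![1, 0, 0, 0]) (D hU ![0, 1, 0, 0]) (D hU ![0, 0, 1, 0])
    (D hU ![0, 0, 0, 1])
    (fun f => D_comm hU _ _ f) (fun f => D_comm hU _ _ f) (fun f => D_comm hU _ _ f)
    (fun f => D_comm hU _ _ f) (fun f => D_comm hU _ _ f) (fun f => D_comm hU _ _ f)
    (T := mk _ (hcomp 0)) (X := mk _ (hcomp 1)) (Y := mk _ (hcomp 2)) (Z := mk _ (hcomp 3))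
    (E := mk _ hE) (H := mH U) (G := mG U) ?_ ?_ ?_ ?_ ?_ ?_ ?_ unitGH ?_ ?_ ?_ ?_ ?_ ?_ ?_ ?_ ?_
    ?_ ?_
  · rw [D_H]; simp
  · rw [D_H]; simp
  · rw [D_H]; simp
  · rw [D_H]; simp
  · rw [D_G]; simp
  · rw [D_G]; simp
  · rw [D_G]; simp
  · exact unit_of fun p => (mul_pos (Real.exp_pos _) (pow_pos (hpos p p.2) 2)).ne'
  all_goals
    refine eq_of fun p => ?_
    rw [hGn]
    simp only [Subalgebra.coe_add, Subalgebra.coe_mul, Pi.add_apply, Pi.mul_apply, mk_apply,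
      Subalgebra.coe_zero, Pi.zero_apply, mH]
    simp [gw]

end Pool.Agent.X181.N4
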